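import Mathlib

/-! Rankin bound for the mean value of `∏_{p ∣ n} ℓ / p`, and the count of abc triples. -/

set_option autoImplicit false

namespace Pool.Agent.V11265.HC

open Finset Filter

/-- the weight `∏_{p ∣ n} l / p` -/
noncomputable def wt (l : ℝ) (n : ℕ) : ℝ := ∏ p ∈ n.primeFactors, (l / p)

lemma wt_one (l : ℝ) : wt l 1 = 1 := by simp [wt]

lemma wt_nonneg {l : ℝ} (hl : 0 ≤ l) (n : ℕ) : 0 ≤ wt l n :=
  prod_nonneg fun p _ => by positivity

lemma wt_pos {l : ℝ} (hl : 0 < l) (n : ℕ) : 0 < wt l n :=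
  prod_pos fun p hp => by
    have := (Nat.prime_of_mem_primeFactors hp).pos
    positivity

lemma wt_mul {l : ℝ} {m n : ℕ} (h : Nat.Coprime m n) : wt l (m * n) = wt l m * wt l n := by
  unfold wt
  rw [h.primeFactors_mul, prod_union h.disjoint_primeFactors]

/-- the summand -/
noncomputable def ff (l σ : ℝ) (n : ℕ) : ℝ := if n = 0 then 0 else wt l n * (n : ℝ) ^ (-σ)

lemma ff_one (l σ : ℝ) : ff l σ 1 = 1 := by simp [ff, wt_one]

lemma ff_nonneg {l : ℝ} (hl : 0 ≤ l) (σ : ℝ) (n : ℕ) : 0 ≤ ff l σ n := by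
  unfold ff
  split_ifs
  · exact le_rfl
  · exact mul_nonneg (wt_nonneg hl n) (Real.rpow_nonneg (Nat.cast_nonneg n) _)

lemma ff_mul (l σ : ℝ) {m n : ℕ} (h : Nat.Coprime m n) : ff l σ (m * n) = ff l σ m * ff l σ n := by
  unfold ff
  rcases eq_or_ne m 0 with rfl | hm
  · simp
  rcases eq_or_ne n 0 with rfl | hn
  · simp
  rw [if_neg (mul_ne_zero hm hn), if_neg hm, if_neg hn, wt_mul h]
  push_cast
  rw [Real.mul_rpow (Nat.cast_nonneg m) (Nat.cast_nonneg n)]
  ring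

lemma ff_pow (l σ : ℝ) {p : ℕ} (hp : p.Prime) (e : ℕ) :
    ff l σ (p ^ (e + 1)) = (l / p) * ((p : ℝ) ^ (-σ)) ^ (e + 1) := by
  unfold ff wt
  rw [if_neg (pow_ne_zero _ hp.ne_zero), Nat.primeFactors_prime_pow (Nat.succ_ne_zero e) hp,
    prod_singleton]
  push_cast
  congr 1
  rw [← Real.rpow_natCast, ← Real.rpow_natCast, ← Real.rpow_mul (Nat.cast_nonneg p),
    ← Real.rpow_mul (Nat.cast_nonneg p), mul_comm]

lemma x_lt_one {σ : ℝ} (hσ : 0 < σ) {p : ℕ} (hp : p.Prime) : (p : ℝ) ^ (-σ) < 1 :=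
  Real.rpow_lt_one_of_one_lt_of_neg (by exact_mod_cast hp.one_lt) (by linarith)

lemma x_pos (σ : ℝ) {p : ℕ} (hp : p.Prime) : 0 < (p : ℝ) ^ (-σ) :=
  Real.rpow_pos_of_pos (by exact_mod_cast hp.pos) _

lemma ff_hasSum (l : ℝ) {σ : ℝ} (hσ : 0 < σ) {p : ℕ} (hp : p.Prime) :
    HasSum (fun e : ℕ => ff l σ (p ^ e))
      (1 + (l / p) * (p : ℝ) ^ (-σ) * (1 - (p : ℝ) ^ (-σ))⁻¹) := by
  have h2 : HasSum (fun e : ℕ => ff l σ (p ^ (e + 1)))
      ((l / p) * (p : ℝ) ^ (-σ) * (1 - (p : ℝ) ^ (-σ))⁻¹) := by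
    have h3 := (hasSum_geometric_of_lt_one (x_pos σ hp).le (x_lt_one hσ hp)).mul_left
      ((l / p) * (p : ℝ) ^ (-σ))
    have h5 : (fun e : ℕ => ff l σ (p ^ (e + 1))) =
        fun i : ℕ => (l / p) * (p : ℝ) ^ (-σ) * ((p : ℝ) ^ (-σ)) ^ i := by
      funext e
      rw [ff_pow l σ hp e, pow_succ]
      ring
    rw [h5]
    exact h3
  have h4 := (hasSum_nat_add_iff (f := fun e : ℕ => ff l σ (p ^ e)) 1).mp h2
  simp only [range_one, sum_singleton, pow_zero, ff_one] at h4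
  rw [add_comm]
  exact h4

/-- partial sums are bounded by Euler products -/
lemma sum_le_prod {l σ : ℝ} (hl : 0 ≤ l) (hσ : 0 < σ) (N : ℕ) :
    ∑ n ∈ Icc 1 N, ff l σ n ≤
      ∏ p ∈ (N + 1).primesBelow, (1 + (l / p) * (p : ℝ) ^ (-σ) * (1 - (p : ℝ) ^ (-σ))⁻¹) := by
  have hs : ∀ {p : ℕ}, p.Prime → Summable (fun n : ℕ => ‖ff l σ (p ^ n)‖) := by
    intro p hp
    have := (ff_hasSum l hσ hp).summable
    refine this.congr fun n => ?_
    rw [Real.norm_of_nonneg (ff_nonneg hl σ _)]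
  obtain ⟨h1, h2⟩ := EulerProduct.summable_and_hasSum_smoothNumbers_prod_primesBelow_tsum
    (f := ff l σ) (ff_one l σ) (fun h => ff_mul l σ h) hs (N + 1)
  have h3 : ∏ p ∈ (N + 1).primesBelow, ∑' n : ℕ, ff l σ (p ^ n) =
      ∏ p ∈ (N + 1).primesBelow, (1 + (l / p) * (p : ℝ) ^ (-σ) * (1 - (p : ℝ) ^ (-σ))⁻¹) :=
    prod_congr rfl fun p hp => (ff_hasSum l hσ (Nat.prime_of_mem_primesBelow hp)).tsum_eq
  rw [← h3]
  have hmem : ∀ n ∈ Icc 1 N, n ∈ Nat.smoothNumbers (N + 1) := by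
    intro n hn
    rw [mem_Icc] at hn
    exact Nat.mem_smoothNumbers_of_lt (by omega) (by omega)
  have h4 : ∑ n ∈ Icc 1 N, ff l σ n =
      ∑ m ∈ (Icc 1 N).subtype (· ∈ Nat.smoothNumbers (N + 1)), ff l σ (m : ℕ) := by
    rw [sum_subtype_of_mem (f := ff l σ) hmem]
  rw [h4]
  exact sum_le_hasSum _ (fun m _ => ff_nonneg hl σ _) h2

lemma tail (σ : ℝ) (hσ : 0 < σ) (ε : ℝ) (hε : 0 < ε) : ∃ s : Finset ℕ, ∀ t : Finset ℕ,
    Disjoint t s → ∑ n ∈ t, ((n : ℝ) ^ (1 + σ))⁻¹ < ε := by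
  have h := (Real.summable_nat_rpow_inv (p := 1 + σ)).mpr (by linarith)
  obtain ⟨s, hs⟩ := summable_iff_vanishing_norm.mp h ε hε
  refine ⟨s, fun t ht => lt_of_le_of_lt (le_abs_self _) ?_⟩
  exact hs t ht

/-- the elementary inequality `(1 + y) ^ k ≤ (1 + 1 / t) ^ k * exp (k t y)` -/
lemma one_add_pow_le (k : ℕ) (t y : ℝ) (ht : 0 < t) (hy : 0 ≤ y) :
    (1 + y) ^ k ≤ (1 + 1 / t) ^ k * Real.exp (k * t * y) := by
  have h1 : 1 + y ≤ (1 + 1 / t) * Real.exp (t * y) := by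
    have h2 : 1 + t * y ≤ Real.exp (t * y) := by
      have := Real.add_one_le_exp (t * y)
      linarith
    calc 1 + y ≤ (1 + 1 / t) * (1 + t * y) := by
          have e : (1 + 1 / t) * (1 + t * y) = 1 + y + t * y + 1 / t := by
            field_simp
            ring
          rw [e]
          have : 0 ≤ t * y := by positivity
          have : 0 ≤ 1 / t := by positivity
          linarith
      _ ≤ _ := by gcongr
  calc (1 + y) ^ k ≤ ((1 + 1 / t) * Real.exp (t * y)) ^ k := by gcongr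
    _ = _ := by
      rw [mul_pow, ← Real.exp_nat_mul]
      ring_nf

/-- **Rankin bound**: the sum of `∏_{p ∣ n} (1 + A log X) / p` over `n ≤ X ^ K` is `≪ X ^ δ`. -/
theorem rankin (A K δ : ℝ) (hA : 0 ≤ A) (hK : 0 < K) (hδ : 0 < δ) : ∃ C : ℝ, 0 < C ∧
    ∀ X : ℝ, 1 ≤ X → ∀ N : ℕ, (N : ℝ) ≤ X ^ K →
      ∑ n ∈ Icc 1 N, wt (1 + A * Real.log X) n ≤ C * X ^ δ := by
  set σ : ℝ := δ / (4 * K) with hσd
  have hσ : 0 < σ := by positivity
  set B : ℝ := (1 - (2 : ℝ) ^ (-σ))⁻¹ with hB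
  have hx2 : (2 : ℝ) ^ (-σ) < 1 := Real.rpow_lt_one_of_one_lt_of_neg (by norm_num) (by linarith)
  have hBpos : 0 < B := by
    rw [hB]
    exact inv_pos.mpr (by linarith)
  obtain ⟨s, hs⟩ := tail σ hσ (δ / (4 * B * (A + 1))) (by positivity)
  set k := s.card with hk
  refine ⟨(1 + B + B * A) ^ k * (1 + 1 / (δ / (4 * (k + 1)))) ^ k * Real.exp δ, by positivity, ?_⟩
  intro X hX N hN
  set y := Real.log X with hy
  have hy0 : 0 ≤ y := Real.log_nonneg hX
  have hX0 : 0 < X := by linarith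
  set l := 1 + A * y with hl
  have hl0 : 0 ≤ l := by positivity
  have hXy : ∀ r : ℝ, X ^ r = Real.exp (y * r) := fun r => by
    rw [Real.rpow_def_of_pos hX0]
  -- compare with ff
  have h1 : ∑ n ∈ Icc 1 N, wt l n ≤ X ^ (δ / 4) * ∑ n ∈ Icc 1 N, ff l σ n := by
    rw [mul_sum]
    refine sum_le_sum fun n hn => ?_
    rw [mem_Icc] at hn
    have hn0 : n ≠ 0 := by omega
    have hnp : (0 : ℝ) < n := by exact_mod_cast hn.1
    unfold ff
    rw [if_neg hn0]
    have h2 : (n : ℝ) ^ σ ≤ X ^ (δ / 4) := by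
      have h3 : (n : ℝ) ≤ X ^ K := le_trans (by exact_mod_cast hn.2) hN
      calc (n : ℝ) ^ σ ≤ (X ^ K) ^ σ := Real.rpow_le_rpow hnp.le h3 hσ.le
        _ = X ^ (δ / 4) := by
          rw [← Real.rpow_mul hX0.le]
          congr 1
          rw [hσd]
          field_simp
    have h4 : (n : ℝ) ^ σ * (n : ℝ) ^ (-σ) = 1 := by
      rw [← Real.rpow_add hnp]
      simp
    have h5 : 1 ≤ X ^ (δ / 4) * (n : ℝ) ^ (-σ) := by
      rw [← h4]
      exact mul_le_mul_of_nonneg_right h2 (Real.rpow_nonneg hnp.le _)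
    calc wt l n = wt l n * 1 := by ring
      _ ≤ wt l n * (X ^ (δ / 4) * (n : ℝ) ^ (-σ)) :=
          mul_le_mul_of_nonneg_left h5 (wt_nonneg hl0 n)
      _ = _ := by ring
  have h2 := sum_le_prod hl0 hσ N
  -- bound of the factors
  have h3 : ∀ p ∈ (N + 1).primesBelow,
      1 + (l / p) * (p : ℝ) ^ (-σ) * (1 - (p : ℝ) ^ (-σ))⁻¹ ≤ 1 + l * B * ((p : ℝ) ^ (1 + σ))⁻¹ := by
    intro p hp
    have hpp := Nat.prime_of_mem_primesBelow hp
    have hp0 : (0 : ℝ) < p := by exact_mod_cast hpp.pos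
    have hp2 : (2 : ℝ) ≤ p := by exact_mod_cast hpp.two_le
    have h4 : (1 - (p : ℝ) ^ (-σ))⁻¹ ≤ B := by
      rw [hB]
      apply inv_anti₀ (by linarith)
      have : (p : ℝ) ^ (-σ) ≤ (2 : ℝ) ^ (-σ) :=
        Real.rpow_le_rpow_of_nonpos (by norm_num) hp2 (by linarith)
      linarith
    have h5 : (l / p) * (p : ℝ) ^ (-σ) = l * ((p : ℝ) ^ (1 + σ))⁻¹ := by
      rw [Real.rpow_add hp0, Real.rpow_one, Real.rpow_neg hp0.le, mul_inv]
      field_simp
    rw [h5]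
    have h6 : 0 ≤ l * ((p : ℝ) ^ (1 + σ))⁻¹ := by positivity
    nlinarith [mul_le_mul_of_nonneg_left h4 h6]
  have h4 : ∏ p ∈ (N + 1).primesBelow,
      (1 + (l / p) * (p : ℝ) ^ (-σ) * (1 - (p : ℝ) ^ (-σ))⁻¹) ≤
      ∏ p ∈ (N + 1).primesBelow, (1 + l * B * ((p : ℝ) ^ (1 + σ))⁻¹) := by
    refine prod_le_prod (fun p hp => ?_) h3
    have hpp := Nat.prime_of_mem_primesBelow hp
    have := x_pos σ hpp
    have h5 := x_lt_one hσ hpp
    have h6 : 0 < (1 - (p : ℝ) ^ (-σ))⁻¹ := inv_pos.mpr (by linarith)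
    positivity
  have h5 : ∏ p ∈ (N + 1).primesBelow, (1 + l * B * ((p : ℝ) ^ (1 + σ))⁻¹) ≤
      (1 + l * B) ^ k * Real.exp (y * (δ / 4) + δ / 4) := by
    classical
    rw [← prod_filter_mul_prod_filter_not (N + 1).primesBelow (fun p => p ∈ s)]
    have h6 : ∏ p ∈ (N + 1).primesBelow with p ∈ s, (1 + l * B * ((p : ℝ) ^ (1 + σ))⁻¹) ≤
        (1 + l * B) ^ k := by
      calc ∏ p ∈ (N + 1).primesBelow with p ∈ s, (1 + l * B * ((p : ℝ) ^ (1 + σ))⁻¹)
          ≤ ∏ p ∈ (N + 1).primesBelow with p ∈ s, (1 + l * B) := by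
            refine prod_le_prod (fun p _ => by positivity) fun p hp => ?_
            have hpp := Nat.prime_of_mem_primesBelow (mem_of_mem_filter _ hp)
            have hp1 : (1 : ℝ) ≤ p := by exact_mod_cast hpp.one_lt.le
            have : ((p : ℝ) ^ (1 + σ))⁻¹ ≤ 1 :=
              inv_le_one_of_one_le₀ (Real.one_le_rpow hp1 (by linarith))
            have h7 : 0 ≤ l * B := by positivity
            nlinarith
        _ = (1 + l * B) ^ (((N + 1).primesBelow.filter (fun p => p ∈ s)).card) := by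
            rw [prod_const]
        _ ≤ (1 + l * B) ^ k := by
            apply pow_le_pow_right₀
            · have : 0 ≤ l * B := by positivity
              linarith
            · exact card_le_card fun p hp => (mem_filter.mp hp).2
    have h7 : ∏ p ∈ (N + 1).primesBelow with ¬ p ∈ s, (1 + l * B * ((p : ℝ) ^ (1 + σ))⁻¹) ≤
        Real.exp (y * (δ / 4) + δ / 4) := by
      calc ∏ p ∈ (N + 1).primesBelow with ¬ p ∈ s, (1 + l * B * ((p : ℝ) ^ (1 + σ))⁻¹)
          ≤ ∏ p ∈ (N + 1).primesBelow with ¬ p ∈ s,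
              Real.exp (l * B * ((p : ℝ) ^ (1 + σ))⁻¹) := by
            refine prod_le_prod (fun p _ => by positivity) fun p hp => ?_
            have := Real.add_one_le_exp (l * B * ((p : ℝ) ^ (1 + σ))⁻¹)
            linarith
        _ = Real.exp (l * B * ∑ p ∈ (N + 1).primesBelow with ¬ p ∈ s, ((p : ℝ) ^ (1 + σ))⁻¹) := by
            rw [← Real.exp_sum, mul_sum]
        _ ≤ Real.exp (y * (δ / 4) + δ / 4) := by
            apply Real.exp_le_exp.mpr
            have h8 := (hs ((N + 1).primesBelow.filter (fun p => ¬ p ∈ s)) (by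
              rw [Finset.disjoint_left]
              intro p hp
              exact (mem_filter.mp hp).2)).le
            calc l * B * ∑ p ∈ (N + 1).primesBelow with ¬ p ∈ s, ((p : ℝ) ^ (1 + σ))⁻¹
                ≤ l * B * (δ / (4 * B * (A + 1))) := by gcongr
              _ = l / (A + 1) * (δ / 4) := by field_simp
              _ ≤ (y + 1) * (δ / 4) := by
                  gcongr
                  rw [div_le_iff₀ (by positivity), hl]
                  nlinarith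
              _ = _ := by ring
    have h8 : 0 ≤ ∏ p ∈ (N + 1).primesBelow with ¬ p ∈ s,
        (1 + l * B * ((p : ℝ) ^ (1 + σ))⁻¹) := prod_nonneg fun p _ => by positivity
    exact mul_le_mul h6 h7 h8 (by positivity)
  have h6 : (1 + l * B) ^ k ≤ (1 + B + B * A) ^ k *
      ((1 + 1 / (δ / (4 * (k + 1)))) ^ k * Real.exp (y * (δ / 4))) := by
    have h7 := one_add_pow_le k (δ / (4 * (k + 1))) y (by positivity) hy0
    have h8 : (1 + l * B) ^ k ≤ ((1 + B + B * A) * (1 + y)) ^ k := by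
      gcongr
      rw [hl]
      have : 0 ≤ B * A := by positivity
      nlinarith
    refine h8.trans ?_
    rw [mul_pow]
    refine mul_le_mul_of_nonneg_left (h7.trans ?_) (by positivity)
    refine mul_le_mul_of_nonneg_left (Real.exp_le_exp.mpr ?_) (by positivity)
    have h9 : (k : ℝ) * (δ / (4 * (k + 1))) ≤ δ / 4 := by
      have : (k : ℝ) * (δ / (4 * (k + 1))) = (k / (k + 1)) * (δ / 4) := by
        field_simp
      rw [this]
      have h10 : (k : ℝ) / (k + 1) ≤ 1 := by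
        rw [div_le_one (by positivity)]
        linarith
      nlinarith
    calc (k : ℝ) * (δ / (4 * (k + 1))) * y ≤ δ / 4 * y := by gcongr
      _ = y * (δ / 4) := by ring
  calc ∑ n ∈ Icc 1 N, wt l n ≤ X ^ (δ / 4) * ∑ n ∈ Icc 1 N, ff l σ n := h1
    _ ≤ X ^ (δ / 4) * ((1 + l * B) ^ k * Real.exp (y * (δ / 4) + δ / 4)) := by
        gcongr
        exact h2.trans (h4.trans h5)
    _ ≤ X ^ (δ / 4) * ((1 + B + B * A) ^ k *
        ((1 + 1 / (δ / (4 * (k + 1)))) ^ k * Real.exp (y * (δ / 4))) *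
          Real.exp (y * (δ / 4) + δ / 4)) := by gcongr
    _ = (1 + B + B * A) ^ k * (1 + 1 / (δ / (4 * (k + 1)))) ^ k *
          (Real.exp (y * (δ / 4)) * Real.exp (y * (δ / 4)) * Real.exp (y * (δ / 4) + δ / 4)) := by
        rw [hXy]
        ring
    _ ≤ (1 + B + B * A) ^ k * (1 + 1 / (δ / (4 * (k + 1)))) ^ k * (Real.exp δ * X ^ δ) := by
        refine mul_le_mul_of_nonneg_left ?_ (by positivity)
        rw [hXy, ← Real.exp_add, ← Real.exp_add, ← Real.exp_add]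
        apply Real.exp_le_exp.mpr
        nlinarith [mul_nonneg hy0 hδ.le]
    _ = _ := by ring

end Pool.Agent.V11265.HC
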