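import Mathlib
import Pool.Agent.V11265.HC.Rankin

/-! Counting abc triples with `∏_{p ∣ abc} (p / l) ≤ Y`. -/

set_option autoImplicit false

namespace Pool.Agent.V11265.HC

open Finset Filter

/-- the radical -/
def gam (n : ℕ) : ℕ := ∏ p ∈ n.primeFactors, p

/-- `H (n) = γ (n) / (log γ (n)) ^ ω (n)` -/
noncomputable def H (n : ℕ) : ℝ := (gam n : ℝ) / (Real.log (gam n)) ^ n.primeFactors.card

lemma gam_pos (n : ℕ) : 0 < gam n :=
  prod_pos fun p hp => (Nat.prime_of_mem_primeFactors hp).pos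

lemma wt_eq (l : ℝ) (n : ℕ) : wt l n = l ^ n.primeFactors.card / (gam n : ℝ) := by
  unfold wt gam
  rw [prod_div_distrib, prod_const]
  push_cast
  rfl

lemma gam_two_le {n : ℕ} (hn : 2 ≤ n) : 2 ≤ gam n := by
  obtain ⟨p, hp, hpn⟩ := Nat.exists_prime_and_dvd (show n ≠ 1 by omega)
  have h1 : p ∣ gam n := dvd_prod_of_mem _ (Nat.mem_primeFactors.mpr ⟨hp, hpn, by omega⟩)
  exact hp.two_le.trans (Nat.le_of_dvd (gam_pos n) h1)

lemma H_pos {n : ℕ} (hn : 1 ≤ n) : 0 < H n := by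
  unfold H
  rcases Nat.eq_or_lt_of_le hn with h | h
  · rw [← h]
    simp [gam]
  · have h2 : 2 ≤ gam n := gam_two_le h
    have h3 : 0 < Real.log (gam n) := Real.log_pos (by exact_mod_cast h2)
    have : (0 : ℝ) < gam n := by exact_mod_cast gam_pos n
    positivity

/-- lower bound for `H` -/
lemma one_le_H_mul {n : ℕ} (hn : 1 ≤ n) {l : ℝ} (hl : Real.log (gam n) ≤ l) :
    1 ≤ H n * wt l n := by
  rw [wt_eq]
  unfold H
  rcases Nat.eq_or_lt_of_le hn with h | h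
  · rw [← h]
    simp [gam]
  · have h2 : 2 ≤ gam n := gam_two_le h
    have h3 : 0 < Real.log (gam n) := Real.log_pos (by exact_mod_cast h2)
    have h4 : (0 : ℝ) < gam n := by exact_mod_cast gam_pos n
    have h5 : (gam n : ℝ) / (Real.log (gam n)) ^ n.primeFactors.card *
        (l ^ n.primeFactors.card / (gam n : ℝ)) =
        l ^ n.primeFactors.card / (Real.log (gam n)) ^ n.primeFactors.card := by
      field_simp
    rw [h5, one_le_div (by positivity)]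
    gcongr

/-- the pairs to be counted -/
noncomputable def PP (l Y : ℝ) (N : ℕ) : Finset (ℕ × ℕ) :=
  (Icc 1 N ×ˢ Icc 1 N).filter fun p => Nat.Coprime p.1 p.2 ∧ p.1 + p.2 ≤ N ∧
    1 ≤ Y * wt l (p.1 * p.2 * (p.1 + p.2))

lemma wt_triple (l : ℝ) {a b : ℕ} (h : Nat.Coprime a b) :
    wt l (a * b * (a + b)) = wt l a * wt l b * wt l (a + b) := by
  have h1 : Nat.Coprime a (a + b) := by simpa using h
  have h2 : Nat.Coprime b (a + b) := by simpa using h.symm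
  rw [wt_mul (Nat.Coprime.mul_left h1 h2), wt_mul h]

lemma three {T u v w : ℝ} (hT : 0 ≤ T) (hu : 0 ≤ u) (hv : 0 ≤ v) (hw : 0 ≤ w)
    (h : 1 ≤ T ^ 3 * (u * v * w) ^ 2) : 1 ≤ T * (u * v) + T * (v * w) + T * (u * w) := by
  by_contra hc
  push Not at hc
  have h1 : 0 ≤ T * (u * v) := by positivity
  have h2 : 0 ≤ T * (v * w) := by positivity
  have h3 : 0 ≤ T * (u * w) := by positivity
  have h4 : T * (u * v) < 1 := by linarith
  have h5 : T * (v * w) ≤ 1 := by linarith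
  have h6 : T * (u * w) ≤ 1 := by linarith
  have h7 : T ^ 3 * (u * v * w) ^ 2 = (T * (u * v)) * ((T * (v * w)) * (T * (u * w))) := by ring
  have h8 : (T * (v * w)) * (T * (u * w)) ≤ 1 := by nlinarith
  have h9 : 0 ≤ (T * (v * w)) * (T * (u * w)) := by positivity
  rw [h7] at h
  nlinarith

theorem card_PP {l Y : ℝ} (hl : 0 ≤ l) (hY : 0 ≤ Y) (N : ℕ) :
    ((PP l Y N).card : ℝ) ≤ 3 * Y ^ ((2 : ℝ) / 3) * (∑ n ∈ Icc 1 N, wt l n) ^ 2 := by
  set T : ℝ := Y ^ ((2 : ℝ) / 3) with hT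
  have hT0 : 0 ≤ T := Real.rpow_nonneg hY _
  have hT3 : T ^ 3 = Y ^ 2 := by
    rw [hT, ← Real.rpow_natCast, ← Real.rpow_mul hY]
    norm_num
  have hw := fun n => wt_nonneg hl n
  have hprod : (∑ n ∈ Icc 1 N, wt l n) ^ 2 = ∑ q ∈ Icc 1 N ×ˢ Icc 1 N, wt l q.1 * wt l q.2 := by
    rw [sq, sum_mul_sum, sum_product]
  have key : ∀ f : ℕ × ℕ → ℕ × ℕ, Set.InjOn f (PP l Y N) →
      (∀ p ∈ PP l Y N, f p ∈ Icc 1 N ×ˢ Icc 1 N) →
      ∑ p ∈ PP l Y N, wt l (f p).1 * wt l (f p).2 ≤ (∑ n ∈ Icc 1 N, wt l n) ^ 2 := by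
    intro f hf hm
    rw [hprod, ← sum_image (f := fun q : ℕ × ℕ => wt l q.1 * wt l q.2) hf]
    refine sum_le_sum_of_subset_of_nonneg ?_ fun q _ _ => mul_nonneg (hw _) (hw _)
    intro q hq
    obtain ⟨p, hp, rfl⟩ := mem_image.mp hq
    exact hm p hp
  have h1 := key (fun p => (p.1, p.2)) (fun _ _ _ _ h => h) (fun p hp => (mem_filter.mp hp).1)
  have h2 := key (fun p => (p.2, p.1 + p.2)) (by
      rintro ⟨a, b⟩ _ ⟨c, d⟩ _ h
      simp only [Prod.mk.injEq] at h ⊢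
      omega) (by
      rintro ⟨a, b⟩ hp
      have h := mem_filter.mp hp
      simp only [mem_product, mem_Icc] at h ⊢
      omega)
  have h3 := key (fun p => (p.1, p.1 + p.2)) (by
      rintro ⟨a, b⟩ _ ⟨c, d⟩ _ h
      simp only [Prod.mk.injEq] at h ⊢
      omega) (by
      rintro ⟨a, b⟩ hp
      have h := mem_filter.mp hp
      simp only [mem_product, mem_Icc] at h ⊢
      omega)
  have h4 : ((PP l Y N).card : ℝ) ≤ ∑ p ∈ PP l Y N,
      (T * (wt l p.1 * wt l p.2) + T * (wt l p.2 * wt l (p.1 + p.2)) +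
        T * (wt l p.1 * wt l (p.1 + p.2))) := by
    rw [card_eq_sum_ones]
    push_cast
    refine sum_le_sum fun p hp => ?_
    obtain ⟨-, hcop, -, hge⟩ := mem_filter.mp hp
    apply three hT0 (hw _) (hw _) (hw _)
    rw [wt_triple l hcop] at hge
    rw [hT3, ← mul_pow]
    exact one_le_pow₀ hge
  calc ((PP l Y N).card : ℝ) ≤ _ := h4
    _ = T * ∑ p ∈ PP l Y N, wt l p.1 * wt l p.2 +
        T * ∑ p ∈ PP l Y N, wt l p.2 * wt l (p.1 + p.2) +
        T * ∑ p ∈ PP l Y N, wt l p.1 * wt l (p.1 + p.2) := by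
      rw [sum_add_distrib, sum_add_distrib, mul_sum, mul_sum, mul_sum]
    _ ≤ T * (∑ n ∈ Icc 1 N, wt l n) ^ 2 + T * (∑ n ∈ Icc 1 N, wt l n) ^ 2 +
        T * (∑ n ∈ Icc 1 N, wt l n) ^ 2 := by gcongr
    _ = _ := by ring

end Pool.Agent.V11265.HC
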