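import Mathlib
import Pool.Agent.V11265.HC.Count

/-! The exceptions to `c < H (abc) ^ M` of small height. -/

set_option autoImplicit false

namespace Pool.Agent.V11265.HC

open Finset Filter

/-- triples of height at most `X ^ K` whose radical is at most `exp (A log X)` and with
`H ^ M ≤ c ≤ X ^ K` -/
theorem small (A K M δ : ℝ) (hA : 0 ≤ A) (hK : 0 < K) (hM : 0 < M) (hδ : 0 < δ) :
    ∃ C : ℝ, 0 < C ∧ ∀ X : ℝ, 1 ≤ X → ∀ S : Set (ℕ × ℕ),
      (∀ p ∈ S, 0 < p.1 ∧ 0 < p.2 ∧ Nat.Coprime p.1 p.2 ∧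
        Real.log (gam (p.1 * p.2 * (p.1 + p.2))) ≤ A * Real.log X ∧
        ((p.1 + p.2 : ℕ) : ℝ) ≤ X ^ K ∧
        H (p.1 * p.2 * (p.1 + p.2)) ^ M ≤ ((p.1 + p.2 : ℕ) : ℝ)) →
      S.Finite ∧ (S.ncard : ℝ) ≤ C * X ^ (2 * K / (3 * M) + δ) := by
  obtain ⟨C, hC, hR⟩ := rankin A K (δ / 2) hA hK (by positivity)
  refine ⟨3 * C ^ 2, by positivity, fun X hX S hS => ?_⟩
  have hX0 : 0 < X := by linarith
  set l := 1 + A * Real.log X with hl
  have hl0 : 0 ≤ l := by
    have := Real.log_nonneg hX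
    positivity
  set N := ⌊X ^ K⌋₊ with hN
  have hXK : 0 ≤ X ^ K := Real.rpow_nonneg hX0.le _
  have hNle : (N : ℝ) ≤ X ^ K := Nat.floor_le hXK
  set Y : ℝ := X ^ (K / M) with hY
  have hY0 : 0 ≤ Y := Real.rpow_nonneg hX0.le _
  have hsub : S ⊆ (PP l Y N : Set (ℕ × ℕ)) := by
    intro p hp
    obtain ⟨h1, h2, h3, h4, h5, h6⟩ := hS p hp
    have h7 : p.1 + p.2 ≤ N := Nat.le_floor h5
    have h8 : 1 ≤ p.1 * p.2 * (p.1 + p.2) :=
      Nat.one_le_iff_ne_zero.mpr (mul_ne_zero (mul_ne_zero h1.ne' h2.ne') (by omega))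
    have h9 : 1 ≤ H (p.1 * p.2 * (p.1 + p.2)) * wt l (p.1 * p.2 * (p.1 + p.2)) :=
      one_le_H_mul h8 (by linarith)
    have h10 : H (p.1 * p.2 * (p.1 + p.2)) ≤ Y := by
      have h11 := H_pos h8
      calc H (p.1 * p.2 * (p.1 + p.2)) = (H (p.1 * p.2 * (p.1 + p.2)) ^ M) ^ (1 / M) := by
            rw [← Real.rpow_mul h11.le, mul_one_div_cancel hM.ne', Real.rpow_one]
        _ ≤ (X ^ K) ^ (1 / M) :=
            Real.rpow_le_rpow (Real.rpow_nonneg h11.le _) (h6.trans h5) (by positivity)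
        _ = Y := by
            rw [hY, ← Real.rpow_mul hX0.le]
            congr 1
            ring
    simp only [PP, coe_filter, mem_product, mem_Icc, Set.mem_ofPred_eq]
    refine ⟨⟨⟨h1, by omega⟩, ⟨h2, by omega⟩⟩, h3, h7, ?_⟩
    exact h9.trans (mul_le_mul_of_nonneg_right h10 (wt_nonneg hl0 _))
  refine ⟨(finite_toSet _).subset hsub, ?_⟩
  have h1 : (S.ncard : ℝ) ≤ ((PP l Y N).card : ℝ) := by
    rw [← Set.ncard_coe_finset]
    exact_mod_cast Set.ncard_le_ncard hsub (finite_toSet _)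
  have h2 := card_PP hl0 hY0 N
  have h3 := hR X hX N hNle
  have h4 : 0 ≤ ∑ n ∈ Icc 1 N, wt l n := sum_nonneg fun n _ => wt_nonneg hl0 n
  have h5 : Y ^ ((2 : ℝ) / 3) = X ^ (2 * K / (3 * M)) := by
    rw [hY, ← Real.rpow_mul hX0.le]
    congr 1
    field_simp
  calc (S.ncard : ℝ) ≤ 3 * Y ^ ((2 : ℝ) / 3) * (∑ n ∈ Icc 1 N, wt l n) ^ 2 := h1.trans h2
    _ ≤ 3 * Y ^ ((2 : ℝ) / 3) * (C * X ^ (δ / 2)) ^ 2 := by gcongr
    _ = 3 * C ^ 2 * (X ^ (2 * K / (3 * M)) * (X ^ (δ / 2) * X ^ (δ / 2))) := by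
        rw [h5]
        ring
    _ = _ := by
        rw [← Real.rpow_add hX0, ← Real.rpow_add hX0]
        congr 2
        ring

/-- `γ (abc) < c ^ 3` -/
lemma gam_lt {a b : ℕ} (ha : 0 < a) (hb : 0 < b) : gam (a * b * (a + b)) < (a + b) ^ 3 := by
  have h4 : gam (a * b * (a + b)) ≤ a * b * (a + b) :=
    Nat.le_of_dvd (by positivity) (Nat.prod_primeFactors_dvd _)
  have h6 : a * b < (a + b) * (a + b) :=
    Nat.mul_lt_mul_of_lt_of_le (by omega) (by omega) (by omega)
  calc gam (a * b * (a + b)) ≤ a * b * (a + b) := h4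
    _ < (a + b) * (a + b) * (a + b) := Nat.mul_lt_mul_of_pos_right h6 (by omega)
    _ = _ := by ring

/-- for `0 ≤ M ≤ 1/3` the inequality `c < H ^ M` always fails -/
lemma H_rpow_le {a b : ℕ} (ha : 0 < a) (hab : a ≤ b) (hcop : Nat.Coprime a b) {M : ℝ}
    (hM0 : 0 ≤ M) (hM : M ≤ 1 / 3) : H (a * b * (a + b)) ^ M ≤ ((a + b : ℕ) : ℝ) := by
  have hb : 0 < b := by omega
  have hn : 1 ≤ a * b * (a + b) :=
    Nat.one_le_iff_ne_zero.mpr (mul_ne_zero (mul_ne_zero ha.ne' hb.ne') (by omega))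
  have hH := H_pos hn
  have hc2 : (2 : ℝ) ≤ ((a + b : ℕ) : ℝ) := by exact_mod_cast (by omega : 2 ≤ a + b)
  have key : H (a * b * (a + b)) ≤ ((a + b : ℕ) : ℝ) ^ (3 : ℕ) := by
    rcases Nat.lt_or_ge b 2 with h | h
    · have e1 : b = 1 := by omega
      have e2 : a = 1 := by omega
      subst e1 e2
      have e3 : gam (1 * 1 * (1 + 1)) = 2 := by
        unfold gam
        norm_num [Nat.Prime.primeFactors Nat.prime_two]
      have e4 : (1 * 1 * (1 + 1) : ℕ).primeFactors.card = 1 := by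
        norm_num [Nat.Prime.primeFactors Nat.prime_two]
      unfold H
      rw [e3, e4]
      have := Real.log_two_gt_d9
      rw [pow_one]
      push_cast
      rw [div_le_iff₀ (by linarith)]
      norm_num
      linarith
    · -- `6 ∣ n` or at least `γ ≥ 3`
      have h3 : 3 ≤ gam (a * b * (a + b)) := by
        by_contra hcon
        have h4 : gam (a * b * (a + b)) = 2 := by
          have hab1 : 1 ≤ a * b := Nat.one_le_iff_ne_zero.mpr (mul_ne_zero ha.ne' hb.ne')
          have hab2 : 2 ≤ a * b * (a + b) := by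
            calc 2 = 1 * 2 := by norm_num
              _ ≤ a * b * (a + b) := Nat.mul_le_mul hab1 (by omega)
          have := gam_two_le (n := a * b * (a + b)) hab2
          omega
        -- all primes dividing the product are 2
        have h5 : ∀ p, p.Prime → p ∣ a * b * (a + b) → p = 2 := by
          intro p hp hpn
          have h6 : p ∣ gam (a * b * (a + b)) :=
            dvd_prod_of_mem _ (Nat.mem_primeFactors.mpr ⟨hp, hpn, by omega⟩)
          rw [h4] at h6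
          exact (Nat.prime_dvd_prime_iff_eq hp Nat.prime_two).mp h6
        obtain ⟨p, hp, hpb⟩ := Nat.exists_prime_and_dvd (show b ≠ 1 by omega)
        obtain ⟨q, hq, hqc⟩ := Nat.exists_prime_and_dvd (show a + b ≠ 1 by omega)
        have e1 := h5 p hp (Dvd.dvd.mul_right (Dvd.dvd.mul_left hpb a) _)
        have e2 := h5 q hq (Dvd.dvd.mul_left hqc _)
        subst e1
        rw [e2] at hqc
        have h7 : 2 ∣ a := (Nat.dvd_add_left hpb).mp hqc
        have := Nat.dvd_gcd h7 hpb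
        rw [hcop] at this
        omega
      have h4 : 1 ≤ Real.log (gam (a * b * (a + b))) := by
        rw [Real.le_log_iff_exp_le (by exact_mod_cast gam_pos _)]
        have := Real.exp_one_lt_d9
        have h5 : (3 : ℝ) ≤ gam (a * b * (a + b)) := by exact_mod_cast h3
        linarith
      have h5 : H (a * b * (a + b)) ≤ gam (a * b * (a + b)) := by
        unfold H
        exact div_le_self (by positivity) (one_le_pow₀ h4)
      have h6 : ((gam (a * b * (a + b)) : ℕ) : ℝ) ≤ ((a + b : ℕ) : ℝ) ^ (3 : ℕ) := by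
        exact_mod_cast (gam_lt ha hb).le
      linarith
  rcases le_or_gt (H (a * b * (a + b))) 1 with h | h
  · calc H (a * b * (a + b)) ^ M ≤ 1 := Real.rpow_le_one hH.le h hM0
      _ ≤ _ := by linarith
  · calc H (a * b * (a + b)) ^ M ≤ H (a * b * (a + b)) ^ ((1 : ℝ) / 3) :=
          Real.rpow_le_rpow_of_exponent_le h.le hM
      _ ≤ (((a + b : ℕ) : ℝ) ^ (3 : ℕ)) ^ ((1 : ℝ) / 3) :=
          Real.rpow_le_rpow hH.le key (by norm_num)
      _ = ((a + b : ℕ) : ℝ) := by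
          rw [← Real.rpow_natCast, ← Real.rpow_mul (by positivity)]
          norm_num

end Pool.Agent.V11265.HC
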