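import Mathlib

/-! Solutions of `x + y + z = 0` divisible by three given coprime numbers. -/

set_option autoImplicit false

namespace Pool.Agent.V11265.HC

open Finset

/-- a divisor in a given range -/
lemma exists_dvd {P y R : ℕ} (hy : ∀ p, p.Prime → p ∣ P → p ≤ y) (hR : R ≤ P)
    (hR1 : 1 ≤ R) (hy1 : 1 ≤ y) : ∃ D, D ∣ P ∧ R ≤ D ∧ D ≤ R * y := by
  classical
  have hex : ∃ D, D ∣ P ∧ R ≤ D := ⟨P, dvd_rfl, hR⟩
  refine ⟨Nat.find hex, (Nat.find_spec hex).1, (Nat.find_spec hex).2, ?_⟩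
  set D := Nat.find hex with hD
  obtain ⟨h1, h2⟩ := Nat.find_spec hex
  rw [← hD] at h1 h2
  rcases Nat.lt_or_ge D 2 with h | h
  · calc D ≤ 1 := by omega
      _ ≤ R * y := Nat.one_le_iff_ne_zero.mpr (mul_ne_zero (by omega) (by omega))
  · obtain ⟨p, hp, hpD⟩ := Nat.exists_prime_and_dvd (show D ≠ 1 by omega)
    have h3 : D / p < D := Nat.div_lt_self (by omega) hp.one_lt
    have h4 := Nat.find_min hex (by rw [← hD]; exact h3)
    have h5 : D / p < R := by
      by_contra hc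
      exact h4 ⟨(Nat.div_dvd_of_dvd hpD).trans h1, by omega⟩
    calc D = D / p * p := (Nat.div_mul_cancel hpD).symm
      _ ≤ R * y := Nat.mul_le_mul h5.le (hy p hp (hpD.trans h1))

/-- partition of a squarefree number into three factors, the product of any two being large -/
lemma exists_partition {P y X : ℕ} (hsq : Squarefree P) (hy : ∀ p, p.Prime → p ∣ P → p ≤ y)
    (hy1 : 1 ≤ y) (hX1 : P < X ^ 2) (hX2 : X ^ 2 ≤ 4 * P) (hX3 : 64 * y ^ 2 < X) :
    ∃ A B C : ℕ, Nat.Coprime A B ∧ Nat.Coprime A C ∧ Nat.Coprime B C ∧ A * B * C = P ∧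
      X < A * B ∧ X < A * C ∧ X < B * C := by
  have hP : 0 < P := hsq.ne_zero.bot_lt
  set R := Nat.sqrt X + 1 with hR
  have hs1 : Nat.sqrt X * Nat.sqrt X ≤ X := Nat.sqrt_le X
  have hs2 : X < R * R := Nat.lt_succ_sqrt X
  have hs3 : 8 * y ≤ Nat.sqrt X := by
    rw [Nat.le_sqrt]
    nlinarith
  have hs4 : 1 ≤ Nat.sqrt X := by omega
  -- `4 X R y < X ^ 2`
  have hk : 4 * (R * y) ≤ X := by
    have h1 : R ≤ 2 * Nat.sqrt X := by omega
    calc 4 * (R * y) ≤ 4 * ((2 * Nat.sqrt X) * y) := by gcongr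
      _ = (8 * y) * Nat.sqrt X := by ring
      _ ≤ Nat.sqrt X * Nat.sqrt X := by gcongr
      _ ≤ X := hs1
  have hX0 : 0 < X := by omega
  -- `X R y ≤ P`
  have hk2 : X * (R * y) ≤ P := by
    have h1 : 4 * (X * (R * y)) ≤ 4 * P := by
      calc 4 * (X * (R * y)) = X * (4 * (R * y)) := by ring
        _ ≤ X * X := by gcongr
        _ = X ^ 2 := by ring
        _ ≤ 4 * P := hX2
    omega
  have hk3 : X * (R * y) < P := by
    have h1 : 4 * (R * y) < X ∨ 4 * (R * y) = X := by omega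
    rcases h1 with h1 | h1
    · have h2 : 4 * (X * (R * y)) < 4 * P := by
        calc 4 * (X * (R * y)) = X * (4 * (R * y)) := by ring
          _ < X * X := by gcongr
          _ = X ^ 2 := by ring
          _ ≤ 4 * P := hX2
      omega
    · -- then all inequalities are equalities
      exfalso
      have h1' : R ≤ 2 * Nat.sqrt X := by omega
      have h5 : 4 * (R * y) ≤ (8 * y) * Nat.sqrt X := by
        calc 4 * (R * y) ≤ 4 * ((2 * Nat.sqrt X) * y) := by gcongr
          _ = (8 * y) * Nat.sqrt X := by ring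
      have h6 : X ≤ (8 * y) * Nat.sqrt X := by omega
      have h7 : (8 * y) * Nat.sqrt X ≤ Nat.sqrt X * Nat.sqrt X := by gcongr
      have h8 : Nat.sqrt X * Nat.sqrt X = X := by omega
      have h9 : 8 * y = Nat.sqrt X := by
        have : (8 * y) * Nat.sqrt X = Nat.sqrt X * Nat.sqrt X := by omega
        exact Nat.eq_of_mul_eq_mul_right (by omega) this
      rw [← h9] at h8
      nlinarith
  have hRX : R ≤ X := by
    have : 1 ≤ y := hy1
    nlinarith [Nat.mul_le_mul_left R hy1]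
  have hRP : R ≤ P := by
    calc R ≤ X := hRX
      _ = X * 1 := by ring
      _ ≤ X * (R * y) := by
          gcongr
          exact Nat.one_le_iff_ne_zero.mpr (mul_ne_zero (by omega) (by omega))
      _ ≤ P := hk2
  obtain ⟨A, hA1, hA2, hA3⟩ := exists_dvd hy hRP (by omega) hy1
  obtain ⟨Q, hQ⟩ := hA1
  have hQ0 : 0 < Q := Nat.pos_of_ne_zero (by rintro rfl; omega)
  have hA0 : 0 < A := by omega
  have hQR : X < Q := by
    have h1 : X * (R * y) < (R * y) * Q := by
      calc X * (R * y) < P := hk3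
        _ = A * Q := hQ
        _ ≤ (R * y) * Q := by gcongr
    have h2 : (R * y) * X < (R * y) * Q := by rwa [mul_comm X] at h1
    exact Nat.lt_of_mul_lt_mul_left h2
  obtain ⟨B, hB1, hB2, hB3⟩ := exists_dvd (P := Q) (y := y) (R := R)
    (fun p hp hpQ => hy p hp (hpQ.trans (by rw [hQ]; exact dvd_mul_left _ _))) (by omega)
    (by omega) hy1
  obtain ⟨C, hC⟩ := hB1
  have hB0 : 0 < B := by omega
  have hPeq : P = A * B * C := by rw [hQ, hC]; ring
  have hsq1 : Squarefree (A * (B * C)) := by rw [← mul_assoc, ← hPeq]; exact hsq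
  have hcop1 : Nat.Coprime A (B * C) := Nat.coprime_of_squarefree_mul hsq1
  have hsq2 : Squarefree (B * C) := hsq1.squarefree_of_dvd (dvd_mul_left _ _)
  have hcop2 : Nat.Coprime B C := Nat.coprime_of_squarefree_mul hsq2
  refine ⟨A, B, C, Nat.Coprime.coprime_mul_right_right hcop1,
    Nat.Coprime.coprime_mul_left_right hcop1, hcop2, hPeq.symm, ?_, ?_, ?_⟩
  · calc X < R * R := hs2
      _ ≤ A * B := Nat.mul_le_mul hA2 hB2
  · -- `A C = P / B`
    have h1 : X * (R * y) < (R * y) * (A * C) := by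
      calc X * (R * y) < P := hk3
        _ = B * (A * C) := by rw [hPeq]; ring
        _ ≤ (R * y) * (A * C) := by gcongr
    have h2 : (R * y) * X < (R * y) * (A * C) := by rwa [mul_comm X] at h1
    exact Nat.lt_of_mul_lt_mul_left h2
  · rw [← hC]
    exact hQR

/-- pigeonhole -/
lemma exists_xyz {A B C X : ℕ} (hAB : Nat.Coprime A B) (hAC : Nat.Coprime A C)
    (hBC : Nat.Coprime B C) (h : A * B * C ≤ X ^ 2) (h1 : X < A * B) (h2 : X < A * C)
    (h3 : X < B * C) :
    ∃ x y z : ℤ, x ≠ 0 ∧ y ≠ 0 ∧ z ≠ 0 ∧ x + y + z = 0 ∧ (A : ℤ) ∣ x ∧ (B : ℤ) ∣ y ∧ (C : ℤ) ∣ z ∧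
      |x| ≤ X ∧ |y| ≤ X := by
  have hA : 0 < A := Nat.pos_of_ne_zero (by rintro rfl; simp at h1)
  have hB : 0 < B := Nat.pos_of_ne_zero (by rintro rfl; simp at h1)
  have hC : 0 < C := Nat.pos_of_ne_zero (by rintro rfl; simp at h2)
  have hcard : (range C).card < (range (X / A + 1) ×ˢ range (X / B + 1)).card := by
    rw [card_product, card_range, card_range, card_range]
    have e1 : X < (X / A + 1) * A := by
      have := Nat.lt_div_mul_add (a := X) hA
      linarith
    have e2 : X < (X / B + 1) * B := by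
      have := Nat.lt_div_mul_add (a := X) hB
      linarith
    have e3 : X ^ 2 < (X / A + 1) * (X / B + 1) * (A * B) := by
      calc X ^ 2 = X * X := by ring
        _ < ((X / A + 1) * A) * ((X / B + 1) * B) := Nat.mul_lt_mul'' e1 e2
        _ = _ := by ring
    have e4 : C * (A * B) < (X / A + 1) * (X / B + 1) * (A * B) := by
      calc C * (A * B) = A * B * C := by ring
        _ ≤ X ^ 2 := h
        _ < _ := e3
    exact Nat.lt_of_mul_lt_mul_right e4
  obtain ⟨⟨u1, v1⟩, hm1, ⟨u2, v2⟩, hm2, hne, heq⟩ :=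
    Finset.exists_ne_map_eq_of_card_lt_of_maps_to hcard
      (f := fun q : ℕ × ℕ => (A * q.1 + B * q.2) % C)
      (fun q _ => by
        simp only [coe_range, Set.mem_Iio]
        exact Nat.mod_lt _ hC)
  simp only [mem_product, mem_range] at hm1 hm2
  simp only at heq
  have hdiv : (C : ℤ) ∣ A * ((u1 : ℤ) - u2) + B * ((v1 : ℤ) - v2) := by
    have h4 : (A * u2 + B * v2 : ℕ) ≡ (A * u1 + B * v1 : ℕ) [MOD C] := heq.symm
    have h5 := (Nat.modEq_iff_dvd).mp h4
    push_cast at h5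
    have e : (A : ℤ) * ((u1 : ℤ) - u2) + B * ((v1 : ℤ) - v2) =
        (A * u1 + B * v1) - (A * u2 + B * v2) := by ring
    rw [e]
    exact h5
  have hU : |(u1 : ℤ) - u2| ≤ (X / A : ℕ) := by
    rw [abs_le]
    constructor <;> omega
  have hV : |(v1 : ℤ) - v2| ≤ (X / B : ℕ) := by
    rw [abs_le]
    constructor <;> omega
  set U : ℤ := (u1 : ℤ) - u2 with hUd
  set V : ℤ := (v1 : ℤ) - v2 with hVd
  have hUV : ¬ (U = 0 ∧ V = 0) := by
    rintro ⟨e1, e2⟩
    apply hne
    ext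
    · simp only
      omega
    · simp only
      omega
  have bdA : (A : ℤ) * (X / A : ℕ) ≤ X := by exact_mod_cast Nat.mul_div_le X A
  have bdB : (B : ℤ) * (X / B : ℕ) ≤ X := by exact_mod_cast Nat.mul_div_le X B
  have hAZ : (0 : ℤ) < A := by exact_mod_cast hA
  have hBZ : (0 : ℤ) < B := by exact_mod_cast hB
  have hCZ : (0 : ℤ) < C := by exact_mod_cast hC
  have hx : |(A : ℤ) * U| ≤ X := by
    rw [abs_mul, abs_of_pos hAZ]
    calc (A : ℤ) * |U| ≤ A * (X / A : ℕ) := by gcongr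
      _ ≤ X := bdA
  have hy : |(B : ℤ) * V| ≤ X := by
    rw [abs_mul, abs_of_pos hBZ]
    calc (B : ℤ) * |V| ≤ B * (X / B : ℕ) := by gcongr
      _ ≤ X := bdB
  have cAB : IsCoprime (A : ℤ) B := Nat.isCoprime_iff_coprime.mpr hAB
  have cAC : IsCoprime (A : ℤ) C := Nat.isCoprime_iff_coprime.mpr hAC
  have cBC : IsCoprime (B : ℤ) C := Nat.isCoprime_iff_coprime.mpr hBC
  have hU0 : U ≠ 0 := by
    intro h0
    have hV0 : V ≠ 0 := fun h => hUV ⟨h0, h⟩
    rw [h0, mul_zero, zero_add] at hdiv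
    have h6 : (C : ℤ) ∣ V := cBC.symm.dvd_of_dvd_mul_left hdiv
    have h7 : (C : ℤ) ≤ |V| := Int.le_of_dvd (abs_pos.mpr hV0) ((dvd_abs _ _).mpr h6)
    have h8 : (B : ℤ) * C ≤ X := by
      calc (B : ℤ) * C ≤ B * |V| := by gcongr
        _ = |(B : ℤ) * V| := by rw [abs_mul, abs_of_pos hBZ]
        _ ≤ X := hy
    have h9 : B * C ≤ X := by exact_mod_cast h8
    omega
  have hV0 : V ≠ 0 := by
    intro h0
    rw [h0, mul_zero, add_zero] at hdiv
    have h6 : (C : ℤ) ∣ U := cAC.symm.dvd_of_dvd_mul_left hdiv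
    have h7 : (C : ℤ) ≤ |U| := Int.le_of_dvd (abs_pos.mpr hU0) ((dvd_abs _ _).mpr h6)
    have h8 : (A : ℤ) * C ≤ X := by
      calc (A : ℤ) * C ≤ A * |U| := by gcongr
        _ = |(A : ℤ) * U| := by rw [abs_mul, abs_of_pos hAZ]
        _ ≤ X := hx
    have h9 : A * C ≤ X := by exact_mod_cast h8
    omega
  refine ⟨A * U, B * V, -(A * U + B * V), mul_ne_zero hAZ.ne' hU0, mul_ne_zero hBZ.ne' hV0, ?_,
    by ring, dvd_mul_right _ _, dvd_mul_right _ _, (dvd_neg).mpr hdiv, hx, hy⟩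
  intro h0
  have h6 : (A : ℤ) * U = -(B * V) := by linarith
  have h7 : (B : ℤ) ∣ A * U := by
    rw [h6]
    exact (dvd_neg).mpr (dvd_mul_right _ _)
  have h8 : (B : ℤ) ∣ U := cAB.symm.dvd_of_dvd_mul_left h7
  have h9 : (B : ℤ) ≤ |U| := Int.le_of_dvd (abs_pos.mpr hU0) ((dvd_abs _ _).mpr h8)
  have h10 : (A : ℤ) * B ≤ X := by
    calc (A : ℤ) * B ≤ A * |U| := by gcongr
      _ = |(A : ℤ) * U| := by rw [abs_mul, abs_of_pos hAZ]
      _ ≤ X := hx
  have h11 : A * B ≤ X := by exact_mod_cast h10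
  omega

/-- from coprime integers with sum zero to an admissible triple -/
lemma exists_triple {x y z : ℤ} (hx : x ≠ 0) (hy : y ≠ 0) (hz : z ≠ 0) (h : x + y + z = 0)
    (hcop : IsCoprime x y) : ∃ a b : ℕ, 0 < a ∧ 0 < b ∧ Nat.Coprime a b ∧
      a * b * (a + b) = (x * y * z).natAbs ∧
      ((a + b) = x.natAbs ∨ (a + b) = y.natAbs ∨ (a + b) = z.natAbs) := by
  have hxz : IsCoprime x z := by
    have : z = -(y + x * 1) := by linarith
    rw [this]
    exact (IsCoprime.add_mul_left_right hcop 1).neg_right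
  have hyz : IsCoprime y z := by
    have : z = -(x + y * 1) := by linarith
    rw [this]
    exact (IsCoprime.add_mul_left_right hcop.symm 1).neg_right
  have key : ∀ u v w : ℤ, u ≠ 0 → v ≠ 0 → u + v + w = 0 → IsCoprime u v → 0 < u * v →
      ∃ a b : ℕ, 0 < a ∧ 0 < b ∧ Nat.Coprime a b ∧ a * b * (a + b) = (u * v * w).natAbs ∧
        a + b = w.natAbs := by
    intro u v w hu hv hsum hc hpos
    refine ⟨u.natAbs, v.natAbs, Int.natAbs_pos.mpr hu, Int.natAbs_pos.mpr hv,
      Int.isCoprime_iff_gcd_eq_one.mp hc, ?_, ?_⟩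
    · have e : u.natAbs + v.natAbs = w.natAbs := by
        rcases lt_or_gt_of_ne hu with h1 | h1
        · have h2 : v < 0 := by nlinarith
          omega
        · have h2 : 0 < v := by nlinarith
          omega
      rw [e, Int.natAbs_mul, Int.natAbs_mul]
    · rcases lt_or_gt_of_ne hu with h1 | h1
      · have h2 : v < 0 := by nlinarith
        omega
      · have h2 : 0 < v := by nlinarith
        omega
  rcases lt_or_gt_of_ne (mul_ne_zero hx hy) with h1 | h1
  · rcases lt_or_gt_of_ne (mul_ne_zero hx hz) with h2 | h2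
    · have h3 : 0 < y * z := by
        have h4 : 0 < (x * y) * (x * z) := mul_pos_of_neg_of_neg h1 h2
        have h5 : (x * y) * (x * z) = x ^ 2 * (y * z) := by ring
        rw [h5] at h4
        exact (pos_iff_pos_of_mul_pos h4).mp (by positivity)
      obtain ⟨a, b, e1, e2, e3, e4, e5⟩ := key y z x hy hz (by linarith) hyz h3
      refine ⟨a, b, e1, e2, e3, ?_, Or.inl e5⟩
      rw [e4]
      congr 1
      ring
    · obtain ⟨a, b, e1, e2, e3, e4, e5⟩ := key x z y hx hz (by linarith) hxz h2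
      refine ⟨a, b, e1, e2, e3, ?_, Or.inr (Or.inl e5)⟩
      rw [e4]
      congr 1
      ring
  · obtain ⟨a, b, e1, e2, e3, e4, e5⟩ := key x y z hx hy (by linarith) hcop h1
    exact ⟨a, b, e1, e2, e3, e4, Or.inr (Or.inr e5)⟩

/-- **The triples.** `P` squarefree with prime factors `≤ y`, `P < X ^ 2 ≤ 4 P`: there is an
admissible triple and `g ≥ 1` such that `c g ≤ 2 X` and every prime dividing `P` divides `g` or
`abc`. -/
theorem exists_adm {P y X : ℕ} (hsq : Squarefree P) (hy : ∀ p, p.Prime → p ∣ P → p ≤ y)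
    (hy1 : 1 ≤ y) (hX1 : P < X ^ 2) (hX2 : X ^ 2 ≤ 4 * P) (hX3 : 64 * y ^ 2 < X) :
    ∃ a b g : ℕ, 0 < a ∧ 0 < b ∧ Nat.Coprime a b ∧ 0 < g ∧ (a + b) * g ≤ 2 * X ∧
      ∀ p, p.Prime → p ∣ P → p ∣ g ∨ p ∣ a * b * (a + b) := by
  obtain ⟨A, B, C, hAB, hAC, hBC, hP, h1, h2, h3⟩ := exists_partition hsq hy hy1 hX1 hX2 hX3
  obtain ⟨x, y', z, hx, hy', hz, hsum, dA, dB, dC, bx, by'⟩ :=
    exists_xyz hAB hAC hBC (by rw [hP]; exact hX1.le) h1 h2 h3
  set g := Int.gcd x y' with hg
  have hg0 : 0 < g := Int.gcd_pos_of_ne_zero_left _ hx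
  obtain ⟨x1, hx1⟩ := Int.gcd_dvd_left x y'
  obtain ⟨y1, hy1'⟩ := Int.gcd_dvd_right x y'
  rw [← hg] at hx1 hy1'
  have hgZ : (g : ℤ) ≠ 0 := by exact_mod_cast hg0.ne'
  have hz1 : z = g * (-(x1 + y1)) := by
    have : z = -(x + y') := by linarith
    rw [this, hx1, hy1']
    ring
  have hx10 : x1 ≠ 0 := by rintro rfl; simp at hx1; exact hx hx1
  have hy10 : y1 ≠ 0 := by rintro rfl; simp at hy1'; exact hy' hy1'
  have hz10 : -(x1 + y1) ≠ 0 := by
    intro h
    rw [h] at hz1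
    simp at hz1
    exact hz hz1
  have hcop : IsCoprime x1 y1 := by
    rw [Int.isCoprime_iff_gcd_eq_one]
    have e : Int.gcd (g * x1) (g * y1) = g * Int.gcd x1 y1 := by
      rw [Int.gcd_mul_left]
      simp
    rw [← hx1, ← hy1', ← hg] at e
    exact (Nat.eq_of_mul_eq_mul_left hg0 (by rw [mul_one]; exact e)).symm
  obtain ⟨a, b, ha, hb, hab, hprod, hc⟩ := exists_triple hx10 hy10 hz10 (by ring) hcop
  refine ⟨a, b, g, ha, hb, hab, hg0, ?_, ?_⟩
  · have bz : |z| ≤ 2 * X := by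
      have : z = -(x + y') := by linarith
      rw [this, abs_neg]
      calc |x + y'| ≤ |x| + |y'| := abs_add_le _ _
        _ ≤ 2 * X := by linarith
    have bd : ∀ w w1 : ℤ, w = g * w1 → |w| ≤ 2 * X → w1.natAbs * g ≤ 2 * X := by
      intro w w1 hw hb
      have e : ((w1.natAbs * g : ℕ) : ℤ) = |w| := by
        rw [hw, abs_mul]
        push_cast
        rw [abs_of_nonneg (Int.natCast_nonneg g)]
        ring
      have : ((w1.natAbs * g : ℕ) : ℤ) ≤ ((2 * X : ℕ) : ℤ) := by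
        rw [e]
        push_cast
        exact hb
      exact_mod_cast this
    rcases hc with hc | hc | hc
    · rw [hc]
      exact bd x x1 hx1 (by linarith [abs_nonneg x])
    · rw [hc]
      exact bd y' y1 hy1' (by linarith [abs_nonneg y'])
    · rw [hc]
      exact bd z _ hz1 bz
  · intro p hp hpP
    have hpZ : Prime (p : ℤ) := Nat.prime_iff_prime_int.mp hp
    have hd : (p : ℤ) ∣ x ∨ (p : ℤ) ∣ y' ∨ (p : ℤ) ∣ z := by
      rw [← hP] at hpP
      rcases (Nat.Prime.dvd_mul hp).mp hpP with h | h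
      · rcases (Nat.Prime.dvd_mul hp).mp h with h | h
        · exact Or.inl ((Int.natCast_dvd_natCast.mpr h).trans dA)
        · exact Or.inr (Or.inl ((Int.natCast_dvd_natCast.mpr h).trans dB))
      · exact Or.inr (Or.inr ((Int.natCast_dvd_natCast.mpr h).trans dC))
    have hd2 : (p : ℤ) ∣ g ∨ (p : ℤ) ∣ x1 * y1 * (-(x1 + y1)) := by
      rcases hd with h | h | h
      · rw [hx1] at h
        rcases hpZ.dvd_or_dvd h with h | h
        · exact Or.inl h
        · exact Or.inr ((h.mul_right _).mul_right _)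
      · rw [hy1'] at h
        rcases hpZ.dvd_or_dvd h with h | h
        · exact Or.inl h
        · exact Or.inr ((h.mul_left _).mul_right _)
      · rw [hz1] at h
        rcases hpZ.dvd_or_dvd h with h | h
        · exact Or.inl h
        · exact Or.inr (h.mul_left _)
    rcases hd2 with h | h
    · exact Or.inl (Int.natCast_dvd_natCast.mp h)
    · right
      rw [hprod]
      exact Int.natCast_dvd.mp h

end Pool.Agent.V11265.HC
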