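import Mathlib
import Pool.Agent.V11265.HC.Low1
import Pool.Agent.V11265.HC.Count

/-! Triples with small `H (abc)`: the deterministic inequality. -/

set_option autoImplicit false

namespace Pool.Agent.V11265.HC

open Finset

/-- `log H (n) ≤ log n - k log log n` if `n` has at least `k` prime factors and
`log γ (n) ≥ max (k, 1)` -/
lemma log_H_le {n k : ℕ} (hn : 1 ≤ n) (hk : k ≤ n.primeFactors.card)
    (h1 : (k : ℝ) ≤ Real.log (gam n)) (h2 : 1 ≤ Real.log (gam n)) :
    Real.log (H n) ≤ Real.log n - k * Real.log (Real.log n) := by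
  have hg : (0 : ℝ) < gam n := by exact_mod_cast gam_pos n
  have hgn : gam n ≤ n := Nat.le_of_dvd (by omega) (Nat.prod_primeFactors_dvd _)
  set t := Real.log (gam n) with ht
  set N := Real.log n with hN
  have htN : t ≤ N := Real.log_le_log hg (by exact_mod_cast hgn)
  have ht0 : 0 < t := by linarith
  have hN0 : 0 < N := by linarith
  have hlt : 0 ≤ Real.log t := Real.log_nonneg h2
  unfold H
  rw [Real.log_div hg.ne' (by positivity), Real.log_pow, ← ht]
  have h3 : (k : ℝ) * Real.log t ≤ (n.primeFactors.card : ℝ) * Real.log t := by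
    gcongr
  -- `N - t ≥ k (log N - log t)`
  have h4 : Real.log N - Real.log t ≤ N / t - 1 := by
    rw [← Real.log_div hN0.ne' ht0.ne']
    exact Real.log_le_sub_one_of_pos (by positivity)
  have h5 : (k : ℝ) * (N / t - 1) ≤ N - t := by
    have e : N / t - 1 = (N - t) / t := by field_simp
    rw [e, mul_div_assoc', div_le_iff₀ ht0]
    nlinarith [mul_le_mul_of_nonneg_right h1 (by linarith : 0 ≤ N - t)]
  have h6 : (k : ℝ) * (Real.log N - Real.log t) ≤ (k : ℝ) * (N / t - 1) := by gcongr
  nlinarith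

lemma log_two_bounds : 0.6931 < Real.log 2 ∧ Real.log 2 < 0.6932 := by
  constructor
  · have := Real.log_two_gt_d9
    linarith
  · have := Real.log_two_lt_d9
    linarith

/-- `log (1 - z) ≥ - 4 z` for `0 ≤ z ≤ 3/4` -/
lemma log_one_sub_ge {z : ℝ} (h0 : 0 ≤ z) (h1 : z ≤ 3 / 4) : -(4 * z) ≤ Real.log (1 - z) := by
  have h2 : 0 < 1 - z := by linarith
  have h3 := Real.one_sub_inv_le_log_of_pos h2
  have h4 : (1 - z)⁻¹ ≤ 1 + 4 * z := by
    rw [inv_le_iff_one_le_mul₀ h2]
    nlinarith
  linarith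

/-- the real-variable inequality -/
lemma final_ineq {L S χ x t k θ : ℝ} (hL : 10 ≤ L) (hk : k ≤ L / 20) (hk0 : 0 ≤ k)
    (hx : 0 ≤ x) (hχ : χ ≤ L + Real.log 2 - x) (hS : S ≤ 2 * χ)
    (hθ : 2 * L - 2 * Real.log 2 ≤ θ) (hN : θ - x ≤ S + χ)
    (ht0 : 0 ≤ t)
    (ht : t * Real.log (4 * L) ≤ (4 * L) ^ ((3 : ℝ) / 4) * Real.log (4 * L) + 4 / 3 * x) :
    -2 * L + k * Real.log (3 * L) - (4 * L) ^ ((3 : ℝ) / 4) * Real.log (4 * L) - 2 ≤
      -S + (k - t) * Real.log (S + χ) := by
  obtain ⟨l1, l2⟩ := log_two_bounds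
  set D := 2 * L - S with hD
  have hD1 : 2 * x - 2 * Real.log 2 ≤ D := by linarith
  have hSlow : L / 2 ≤ S := by
    have : L - 3 * Real.log 2 ≤ S := by linarith
    linarith
  have hNge : 3 / 2 * S ≤ S + χ := by linarith
  have hN0 : 1 ≤ S + χ := by linarith
  have hNle : S + χ ≤ 4 * L := by linarith
  have hlogN : Real.log (S + χ) ≤ Real.log (4 * L) := Real.log_le_log (by linarith) hNle
  have hlogN0 : 0 ≤ Real.log (S + χ) := Real.log_nonneg hN0
  have h1 : t * Real.log (S + χ) ≤ t * Real.log (4 * L) := by gcongr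
  set z := D / (2 * L) with hz
  have hz1 : z ≤ 3 / 4 := by
    rw [hz, div_le_iff₀ (by linarith)]
    linarith
  have h3 : 3 * L * (1 - z) ≤ S + χ := by
    have e : 3 * L * (1 - z) = 3 / 2 * S := by
      rw [hz]
      field_simp
      rw [hD]
      ring
    rw [e]
    exact hNge
  have h4 : Real.log (3 * L) + Real.log (1 - z) ≤ Real.log (S + χ) := by
    rw [← Real.log_mul (by positivity) (by linarith)]
    exact Real.log_le_log (mul_pos (by linarith) (by linarith)) h3
  have h5 : k * Real.log (3 * L) + k * Real.log (1 - z) ≤ k * Real.log (S + χ) := by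
    rw [← mul_add]
    gcongr
  rcases le_or_gt D 0 with h | h
  · have hz0 : z ≤ 0 := div_nonpos_of_nonpos_of_nonneg h (by linarith)
    have h6 : 0 ≤ Real.log (1 - z) := Real.log_nonneg (by linarith)
    have h7 : 0 ≤ k * Real.log (1 - z) := by positivity
    have h8 : 4 / 3 * x ≤ 2 / 3 * D + 4 / 3 * Real.log 2 := by linarith
    nlinarith
  · have hz0 : 0 ≤ z := by positivity
    have h6 := log_one_sub_ge hz0 hz1
    have h7 : k * -(4 * z) ≤ k * Real.log (1 - z) := by gcongr
    have h8 : k * (4 * z) ≤ D / 10 := by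
      have e : k * (4 * z) = 2 * (k / L) * D := by
        rw [hz]
        field_simp
        ring
      rw [e]
      have h9 : k / L ≤ 1 / 20 := by
        rw [div_le_iff₀ (by linarith)]
        linarith
      nlinarith
    nlinarith

/-- **The inequality for the triples attached to the primes `≤ y`.** -/
theorem low_det {y X : ℕ} (hX : X = Nat.sqrt (primorial y) + 1) (hX3 : 64 * y ^ 2 < X)
    (hy1 : 1 ≤ y) (hL : 10 ≤ Real.log X) (hk : (Nat.primeCounting y : ℝ) ≤ Real.log X / 20) :
    ∃ a b : ℕ, 0 < a ∧ 0 < b ∧ Nat.Coprime a b ∧ Real.log X / 3 ≤ Real.log ((a + b : ℕ) : ℝ) ∧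
      Real.log ((a + b : ℕ) : ℝ) ≤ Real.log X + 1 ∧
      -2 * Real.log X + Nat.primeCounting y * Real.log (3 * Real.log X) -
        (4 * Real.log X) ^ ((3 : ℝ) / 4) * Real.log (4 * Real.log X) - 2 ≤
        Real.log ((a + b : ℕ) : ℝ) - Real.log (H (a * b * (a + b))) := by
  classical
  obtain ⟨l1, l2⟩ := log_two_bounds
  set P := primorial y with hP
  have hP0 : 0 < P := primorial_pos y
  have hX1 : P < X ^ 2 := by
    rw [hX]
    have := Nat.lt_succ_sqrt P
    rw [sq]
    exact this
  have hX2 : X ^ 2 ≤ 4 * P := by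
    have h1 : 1 ≤ Nat.sqrt P := by
      rw [Nat.le_sqrt]
      omega
    have h2 := Nat.sqrt_le P
    calc X ^ 2 ≤ (2 * Nat.sqrt P) ^ 2 := by
          rw [hX]
          gcongr
          omega
      _ = 4 * (Nat.sqrt P * Nat.sqrt P) := by ring
      _ ≤ 4 * P := by gcongr
  have hQ : P = ∏ p ∈ Nat.primesLE y, p := primorial_eq_prod_primesLE y
  have hsq : Squarefree P := by
    rw [hQ]
    exact Finset.squarefree_prod_of_pairwise_isCoprime (fun p hp q hq hpq =>
      Nat.coprime_iff_isRelPrime.mp ((Nat.coprime_primes (Nat.prime_of_mem_primesLE hp)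
        (Nat.prime_of_mem_primesLE hq)).mpr hpq)) fun p hp =>
      (Nat.prime_of_mem_primesLE hp).prime.squarefree
  have hyP : ∀ p, p.Prime → p ∣ P → p ≤ y := by
    intro p hp hpP
    rw [hQ] at hpP
    obtain ⟨q, hq, hpq⟩ := (Prime.dvd_finsetProd_iff hp.prime _).mp hpP
    rw [(Nat.prime_dvd_prime_iff_eq hp (Nat.prime_of_mem_primesLE hq)).mp hpq]
    exact Nat.le_of_mem_primesLE hq
  obtain ⟨a, b, g, ha, hb, hab, hg, hcg, hdiv⟩ := exists_adm hsq hyP hy1 hX1 hX2 hX3
  have hXpos : 0 < X := by omega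
  have hXr : (0 : ℝ) < X := by exact_mod_cast hXpos
  set L := Real.log X with hLd
  set n := a * b * (a + b) with hn
  have hnpos : 1 ≤ n := Nat.one_le_iff_ne_zero.mpr (mul_ne_zero (mul_ne_zero ha.ne' hb.ne')
    (by omega))
  set T := (Nat.primesLE y).filter (fun p => ¬ p ∣ n) with hT
  set W := (Nat.primesLE y).filter (fun p => p ∣ n) with hW
  have hcard : Nat.primeCounting y = W.card + T.card := by
    rw [hT, hW, card_filter_add_card_filter_not, Nat.primesLE_card_eq_primeCounting]
  have hsum : Real.log P = ∑ p ∈ W, Real.log (p : ℝ) + ∑ p ∈ T, Real.log (p : ℝ) := by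
    rw [hT, hW, sum_filter_add_sum_filter_not, hQ, Nat.cast_prod, Real.log_prod]
    intro p hp
    exact_mod_cast (Nat.prime_of_mem_primesLE hp).ne_zero
  have hWsub : W ⊆ n.primeFactors := by
    intro p hp
    rw [hW, mem_filter] at hp
    exact Nat.mem_primeFactors.mpr ⟨Nat.prime_of_mem_primesLE hp.1, hp.2, by omega⟩
  -- logs
  set χ := Real.log ((a + b : ℕ) : ℝ) with hχd
  set x := Real.log (g : ℝ) with hxd
  have hgr : (1 : ℝ) ≤ g := by exact_mod_cast hg
  have hx0 : 0 ≤ x := Real.log_nonneg hgr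
  have hcr : (0 : ℝ) < ((a + b : ℕ) : ℝ) := by exact_mod_cast (by omega : 0 < a + b)
  have h1 : χ ≤ L + Real.log 2 - x := by
    have : Real.log (((a + b) * g : ℕ) : ℝ) ≤ Real.log ((2 * X : ℕ) : ℝ) :=
      Real.log_le_log (by exact_mod_cast Nat.mul_pos (by omega) hg) (by exact_mod_cast hcg)
    rw [Nat.cast_mul, Real.log_mul hcr.ne' (by linarith), Nat.cast_mul,
      Real.log_mul (by norm_num) hXr.ne'] at this
    push_cast at this ⊢
    rw [hχd]
    push_cast
    linarith
  set S := Real.log ((a * b : ℕ) : ℝ) with hSd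
  have habpos : 1 ≤ a * b := Nat.one_le_iff_ne_zero.mpr (mul_ne_zero ha.ne' hb.ne')
  have hS0 : 0 ≤ S := Real.log_nonneg (by exact_mod_cast habpos)
  have hS2 : S ≤ 2 * χ := by
    have : Real.log ((a * b : ℕ) : ℝ) ≤ Real.log (((a + b) ^ 2 : ℕ) : ℝ) := by
      apply Real.log_le_log (by exact_mod_cast habpos)
      exact_mod_cast (by nlinarith : a * b ≤ (a + b) ^ 2)
    rw [Nat.cast_pow, Real.log_pow] at this
    rw [hSd, hχd]
    push_cast at this ⊢
    linarith
  have hNn : Real.log (n : ℝ) = S + χ := by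
    rw [hn, Nat.cast_mul, Real.log_mul (by exact_mod_cast (by omega : a * b ≠ 0)) hcr.ne']
  -- theta
  have hθ1 : 2 * L - 2 * Real.log 2 ≤ Real.log P := by
    have : Real.log ((X ^ 2 : ℕ) : ℝ) ≤ Real.log ((4 * P : ℕ) : ℝ) :=
      Real.log_le_log (by exact_mod_cast (by positivity : 0 < X ^ 2)) (by exact_mod_cast hX2)
    rw [Nat.cast_pow, Real.log_pow, Nat.cast_mul,
      Real.log_mul (by norm_num) (by exact_mod_cast hP0.ne')] at this
    have e : Real.log ((4 : ℕ) : ℝ) = 2 * Real.log 2 := by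
      rw [show ((4 : ℕ) : ℝ) = 2 ^ 2 by norm_num, Real.log_pow]
      norm_num
    rw [e] at this
    push_cast at this
    linarith
  -- T
  have hTx : ∑ p ∈ T, Real.log (p : ℝ) ≤ x := by
    have hd : ∏ p ∈ T, p ∣ g := by
      apply Finset.prod_primes_dvd
      · intro p hp
        exact (Nat.prime_of_mem_primesLE (mem_filter.mp hp).1).prime
      · intro p hp
        obtain ⟨h2, h3⟩ := mem_filter.mp hp
        have hpp := Nat.prime_of_mem_primesLE h2
        rcases hdiv p hpp (by rw [hQ]; exact dvd_prod_of_mem _ h2) with h4 | h4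
        · exact h4
        · exact absurd h4 h3
    have h2 : ∏ p ∈ T, p ≤ g := Nat.le_of_dvd hg hd
    have h3 : ∑ p ∈ T, Real.log (p : ℝ) = Real.log ((∏ p ∈ T, p : ℕ) : ℝ) := by
      rw [Nat.cast_prod, Real.log_prod]
      intro p hp
      exact_mod_cast (Nat.prime_of_mem_primesLE (mem_filter.mp hp).1).ne_zero
    rw [h3]
    apply Real.log_le_log _ (by exact_mod_cast h2)
    exact_mod_cast prod_pos fun p hp => (Nat.prime_of_mem_primesLE (mem_filter.mp hp).1).pos
  -- gamma
  have hgamge : Real.log P - x ≤ Real.log (gam n) := by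
    have h2 : ∑ p ∈ W, Real.log (p : ℝ) ≤ Real.log (gam n) := by
      have e : Real.log (gam n) = ∑ p ∈ n.primeFactors, Real.log (p : ℝ) := by
        unfold gam
        rw [Nat.cast_prod, Real.log_prod]
        intro p hp
        exact_mod_cast (Nat.prime_of_mem_primeFactors hp).ne_zero
      rw [e]
      apply sum_le_sum_of_subset_of_nonneg hWsub
      intro p hp _
      exact Real.log_nonneg (by exact_mod_cast (Nat.prime_of_mem_primeFactors hp).one_lt.le)
    linarith
  have hgamle : Real.log (gam n) ≤ Real.log n := by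
    apply Real.log_le_log (by exact_mod_cast gam_pos n)
    exact_mod_cast Nat.le_of_dvd (by omega) (Nat.prod_primeFactors_dvd n)
  have hNge : Real.log P - x ≤ S + χ := by
    rw [← hNn]
    linarith
  have hx2 : x ≤ L / 2 + 5 / 2 * Real.log 2 := by linarith
  have hgam1 : L ≤ Real.log (gam n) := by linarith
  have hkcard : W.card ≤ n.primeFactors.card := card_le_card hWsub
  have hWk : (W.card : ℝ) ≤ L / 20 := by
    have : (W.card : ℝ) ≤ Nat.primeCounting y := by
      rw [hcard]
      push_cast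
      linarith [(Nat.cast_nonneg T.card : (0 : ℝ) ≤ T.card)]
    linarith
  have hH := log_H_le hnpos hkcard (by linarith) (by linarith)
  -- the number of elements of T
  have ht : (T.card : ℝ) * Real.log (4 * L) ≤
      (4 * L) ^ ((3 : ℝ) / 4) * Real.log (4 * L) + 4 / 3 * x := by
    set z := (4 * L) ^ ((3 : ℝ) / 4) with hz
    have hz0 : 0 ≤ z := by positivity
    have hl4 : 0 < Real.log (4 * L) := Real.log_pos (by linarith)
    have hlz : Real.log z = 3 / 4 * Real.log (4 * L) := by
      rw [hz, Real.log_rpow (by linarith)]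
    set T1 := T.filter (fun p : ℕ => (p : ℝ) ≤ z) with hT1
    set T2 := T.filter (fun p : ℕ => ¬ (p : ℝ) ≤ z) with hT2
    have h2 : T.card = T1.card + T2.card := by
      rw [hT1, hT2, card_filter_add_card_filter_not]
    have h3 : (T1.card : ℝ) ≤ z := by
      have h4 : T1 ⊆ Icc 1 ⌊z⌋₊ := by
        intro p hp
        rw [hT1, mem_filter] at hp
        have hpp := Nat.prime_of_mem_primesLE (mem_filter.mp hp.1).1
        rw [mem_Icc]
        exact ⟨hpp.one_lt.le, Nat.le_floor hp.2⟩
      have h5 := card_le_card h4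
      rw [Nat.card_Icc, Nat.add_sub_cancel] at h5
      calc (T1.card : ℝ) ≤ ⌊z⌋₊ := by exact_mod_cast h5
        _ ≤ z := Nat.floor_le hz0
    have h4 : (T2.card : ℝ) * (3 / 4 * Real.log (4 * L)) ≤ x := by
      calc (T2.card : ℝ) * (3 / 4 * Real.log (4 * L)) = ∑ p ∈ T2, Real.log z := by
            rw [sum_const, nsmul_eq_mul, hlz]
        _ ≤ ∑ p ∈ T2, Real.log (p : ℝ) := by
            refine sum_le_sum fun p hp => ?_
            rw [hT2, mem_filter, not_le] at hp
            exact Real.log_le_log (by positivity) hp.2.le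
        _ ≤ ∑ p ∈ T, Real.log (p : ℝ) := by
            apply sum_le_sum_of_subset_of_nonneg (filter_subset _ _)
            intro p hp _
            have hpp := Nat.prime_of_mem_primesLE (mem_filter.mp hp).1
            exact Real.log_nonneg (by exact_mod_cast hpp.one_lt.le)
        _ ≤ x := hTx
    rw [h2]
    push_cast
    nlinarith
  have hfin := final_ineq (k := (Nat.primeCounting y : ℝ)) (t := (T.card : ℝ)) hL hk
    (Nat.cast_nonneg _) hx0 h1 hS2 hθ1 hNge (Nat.cast_nonneg _) ht
  refine ⟨a, b, ha, hb, hab, ?_, ?_, ?_⟩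
  · linarith
  · linarith
  · refine hfin.trans ?_
    have e : (Nat.primeCounting y : ℝ) - T.card = W.card := by
      rw [hcard]
      push_cast
      ring
    rw [e]
    rw [hNn] at hH
    linarith

end Pool.Agent.V11265.HC
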