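import Mathlib
import Pool.Agent.Helper923.PNT
import Pool.Agent.V11265.HC.Low2

/-! Triples with small `H (abc)`: use of the prime number theorem. -/

set_option autoImplicit false

namespace Pool.Agent.V11265.HC

open Filter Topology

/-- `π (x) log x - θ (x) ≥ (1 - 2 δ) x / log x` for large `x` -/
lemma pi_log_sub_theta (δ : ℝ) (hδ : 0 < δ) : ∀ᶠ x : ℝ in atTop,
    (1 - 2 * δ) * (x / Real.log x) ≤
      (Nat.primeCounting ⌊x⌋₊ : ℝ) * Real.log x - Chebyshev.theta x := by
  rcases le_or_gt 1 δ with h1 | h1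
  · -- trivial: `θ ≤ π log`
    filter_upwards [eventually_ge_atTop (2 : ℝ)] with x hx
    have h2 := Chebyshev.theta_le_pi_mul_log' x
    have h3 : 0 ≤ x / Real.log x := div_nonneg (by linarith) (Real.log_nonneg (by linarith))
    nlinarith
  have hpnt := Pool.Agent.Helper923.PNT.pi_tendsto
  have hev : ∀ᶠ x : ℝ in atTop, (1 - δ) * (x / Real.log x) ≤ (Nat.primeCounting ⌊x⌋₊ : ℝ) := by
    filter_upwards [hpnt.eventually (lt_mem_nhds (show 1 - δ < 1 by linarith)),
      eventually_gt_atTop (1 : ℝ)] with x hx hx1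
    have hl : 0 < Real.log x := Real.log_pos hx1
    have hx0 : 0 < x := by linarith
    rw [lt_div_iff₀ hx0] at hx
    rw [mul_div_assoc', div_le_iff₀ hl]
    exact hx.le
  obtain ⟨t0, ht0⟩ := eventually_atTop.mp hev
  set t1 := max t0 3 with ht1
  have ht1a : t0 ≤ t1 := le_max_left _ _
  have ht1b : 3 ≤ t1 := le_max_right _ _
  filter_upwards [eventually_ge_atTop (t1 / δ), eventually_ge_atTop t1] with x hx hx1
  have hx0 : 0 < x := by linarith
  have h2x : (2 : ℝ) ≤ x := by linarith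
  have hlx : 0 < Real.log x := Real.log_pos (by linarith)
  have hth := Chebyshev.theta_eq_primeCounting_mul_log_sub_integral h2x
  rw [hth]
  have hint : IntervalIntegrable (fun t : ℝ => (Nat.primeCounting ⌊t⌋₊ : ℝ) / t)
      MeasureTheory.volume 2 x := by
    apply IntervalIntegrable.mul_continuousOn
    · apply MonotoneOn.intervalIntegrable
      intro a _ b _ hab
      have := Nat.monotone_primeCounting (Nat.floor_mono hab)
      show (Nat.primeCounting ⌊a⌋₊ : ℝ) ≤ (Nat.primeCounting ⌊b⌋₊ : ℝ)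
      exact_mod_cast this
    · apply ContinuousOn.inv₀ continuousOn_id
      intro t ht
      rw [Set.uIcc_of_le h2x] at ht
      simp only [id]
      linarith [ht.1]
  have hsplit : ∫ t in (2 : ℝ)..x, (Nat.primeCounting ⌊t⌋₊ : ℝ) / t =
      (∫ t in (2 : ℝ)..t1, (Nat.primeCounting ⌊t⌋₊ : ℝ) / t) +
        ∫ t in t1..x, (Nat.primeCounting ⌊t⌋₊ : ℝ) / t := by
    rw [intervalIntegral.integral_add_adjacent_intervals]
    · apply hint.mono_set
      rw [Set.uIcc_of_le (by linarith), Set.uIcc_of_le h2x]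
      exact Set.Icc_subset_Icc le_rfl hx1
    · apply hint.mono_set
      rw [Set.uIcc_of_le hx1, Set.uIcc_of_le h2x]
      exact Set.Icc_subset_Icc (by linarith) le_rfl
  have hpos : 0 ≤ ∫ t in (2 : ℝ)..t1, (Nat.primeCounting ⌊t⌋₊ : ℝ) / t := by
    apply intervalIntegral.integral_nonneg (by linarith)
    intro t ht
    exact div_nonneg (Nat.cast_nonneg _) (by linarith [ht.1])
  have hmain : (1 - δ) / Real.log x * (x - t1) ≤
      ∫ t in t1..x, (Nat.primeCounting ⌊t⌋₊ : ℝ) / t := by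
    have h3 : ∫ t in t1..x, (1 - δ) / Real.log x = (1 - δ) / Real.log x * (x - t1) := by
      rw [intervalIntegral.integral_const, smul_eq_mul]
      ring
    rw [← h3]
    apply intervalIntegral.integral_mono_on hx1 intervalIntegrable_const
    · apply hint.mono_set
      rw [Set.uIcc_of_le hx1, Set.uIcc_of_le h2x]
      exact Set.Icc_subset_Icc (by linarith) le_rfl
    · intro t ht
      have htpos : 0 < t := by linarith [ht.1]
      have hlt : 0 < Real.log t := Real.log_pos (by linarith [ht.1])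
      have h4 := ht0 t (by linarith [ht.1])
      have h5 : Real.log t ≤ Real.log x := Real.log_le_log htpos ht.2
      rw [le_div_iff₀ htpos]
      calc (1 - δ) / Real.log x * t ≤ (1 - δ) / Real.log t * t := by
            gcongr
        _ = (1 - δ) * (t / Real.log t) := by ring
        _ ≤ _ := h4
  have h6 : (1 - 2 * δ) * (x / Real.log x) ≤ (1 - δ) / Real.log x * (x - t1) := by
    have h7 : t1 ≤ δ * x := by
      rw [div_le_iff₀ hδ] at hx
      linarith
    have e1 : (1 - 2 * δ) * (x / Real.log x) = ((1 - 2 * δ) * x) / Real.log x := by ring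
    have e2 : (1 - δ) / Real.log x * (x - t1) = ((1 - δ) * (x - t1)) / Real.log x := by ring
    rw [e1, e2]
    refine div_le_div_of_nonneg_right ?_ hlx.le
    nlinarith
  linarith

/-- monotonicity of `x / log x` -/
lemma div_log_mono {x y : ℝ} (hx : Real.exp 1 ≤ x) (hxy : x ≤ y) :
    x / Real.log x ≤ y / Real.log y := by
  have h := Real.log_div_self_antitoneOn (show x ∈ {x | Real.exp 1 ≤ x} from hx)
    (show y ∈ {x | Real.exp 1 ≤ x} from hx.trans hxy) hxy
  have he : (1 : ℝ) < Real.exp 1 := by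
    have := Real.add_one_lt_exp (one_ne_zero : (1 : ℝ) ≠ 0)
    linarith
  have hx0 : 0 < x := by linarith
  have hlx : 0 < Real.log x := Real.log_pos (by linarith)
  have hly : 0 < Real.log y := Real.log_pos (by linarith)
  rw [div_le_div_iff₀ hlx hly]
  rw [div_le_div_iff₀ (by linarith) hx0] at h
  linarith

/-- choice of `δ` -/
lemma exists_delta {κ : ℝ} (hκ : κ < 2 + 2 * Real.log (3 / 2)) : ∃ δ : ℝ, 0 < δ ∧ δ < 1 / 4 ∧
    κ / 2 * (1 + δ) ^ 2 < (1 - 3 * δ) + (1 - δ) * Real.log (3 / 2 * (1 - δ)) := by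
  have hc : ContinuousAt (fun δ : ℝ => (1 - 3 * δ) + (1 - δ) * Real.log (3 / 2 * (1 - δ)) -
      κ / 2 * (1 + δ) ^ 2) 0 := by
    have : ContinuousAt (fun δ : ℝ => Real.log (3 / 2 * (1 - δ))) 0 := by
      apply ContinuousAt.log (by fun_prop)
      norm_num
    fun_prop
  have h0 : 0 < (fun δ : ℝ => (1 - 3 * δ) + (1 - δ) * Real.log (3 / 2 * (1 - δ)) -
      κ / 2 * (1 + δ) ^ 2) 0 := by
    simp only [mul_zero, sub_zero, mul_one, one_mul, add_zero, one_pow]
    linarith
  have h1 := hc.eventually (lt_mem_nhds h0)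
  rw [Metric.eventually_nhds_iff] at h1
  obtain ⟨r, hr, h2⟩ := h1
  refine ⟨min (r / 2) (1 / 5), by positivity, ?_, ?_⟩
  · linarith [min_le_right (r / 2) (1 / 5)]
  · have h3 := @h2 (min (r / 2) (1 / 5)) (by
      rw [Real.dist_eq, sub_zero, abs_of_pos (by positivity)]
      linarith [min_le_left (r / 2) (1 / 5)])
    linarith

/-- the lower bound for `log c - log H` -/
lemma glow {L Y δ κ k θ G : ℝ} (hδ0 : 0 < δ) (hδ1 : δ < 1 / 4)
    (hδ : κ / 2 * (1 + δ) ^ 2 < (1 - 3 * δ) + (1 - δ) * Real.log (3 / 2 * (1 - δ)))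
    (hκ : 0 ≤ κ) (g1 : (1 - δ) * (Y / Real.log Y) ≤ k) (g3 : (1 - δ) * Y ≤ θ)
    (g3' : θ ≤ (1 + δ / 2) * Y) (g4 : (1 - 2 * δ) * (Y / Real.log Y) ≤ k * Real.log Y - θ)
    (g5 : (4 * Y) ^ ((3 : ℝ) / 4) * Real.log (4 * Y) + 4 ≤ δ * (Y / Real.log Y))
    (g6 : Real.log Y ≤ (1 + δ) * Real.log ((1 + δ) * Y / 2)) (h8 : 8 ≤ δ * Y) (hY40 : 40 ≤ Y)
    (hL1 : θ ≤ 2 * L) (hL2 : 2 * L ≤ θ + 2 * Real.log 2) (hL10 : 10 ≤ L)
    (hG : -2 * L + k * Real.log (3 * L) - (4 * L) ^ ((3 : ℝ) / 4) * Real.log (4 * L) - 2 ≤ G) :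
    κ * ((L + 1) / Real.log (L + 1)) < G := by
  obtain ⟨l1, l2⟩ := log_two_bounds
  have hlY : 0 < Real.log Y := Real.log_pos (by linarith)
  have hLY : L ≤ Y := by nlinarith
  obtain ⟨Z, hZd⟩ : ∃ Z, Z = Y / Real.log Y := ⟨_, rfl⟩
  rw [← hZd] at g1 g4 g5
  have hZ0 : 0 < Z := by
    rw [hZd]
    exact div_pos (by linarith) hlY
  have hk0 : 0 ≤ k := le_trans (mul_nonneg (by linarith) hZ0.le) g1
  have herr : (4 * L) ^ ((3 : ℝ) / 4) * Real.log (4 * L) ≤
      (4 * Y) ^ ((3 : ℝ) / 4) * Real.log (4 * Y) := by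
    have h1 : (4 * L) ^ ((3 : ℝ) / 4) ≤ (4 * Y) ^ ((3 : ℝ) / 4) :=
      Real.rpow_le_rpow (by linarith) (by linarith) (by norm_num)
    have h2 : Real.log (4 * L) ≤ Real.log (4 * Y) :=
      Real.log_le_log (by linarith) (by linarith)
    have h3 : 0 ≤ Real.log (4 * L) := Real.log_nonneg (by linarith)
    have h4 : 0 ≤ (4 * Y) ^ ((3 : ℝ) / 4) := Real.rpow_nonneg (by linarith) _
    exact mul_le_mul h1 h2 h3 h4
  obtain ⟨w, hw⟩ : ∃ w, w = Real.log (3 / 2 * (1 - δ)) := ⟨_, rfl⟩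
  have hlog3L : Real.log Y + w ≤ Real.log (3 * L) := by
    rw [hw, ← Real.log_mul (by linarith) (by linarith)]
    apply Real.log_le_log (mul_pos (by linarith) (by linarith))
    nlinarith
  have hlogpos : 0 ≤ w := by
    rw [hw]
    exact Real.log_nonneg (by linarith)
  rw [← hw] at hδ
  have h1 : k * Real.log Y + (1 - δ) * Z * w ≤ k * Real.log (3 * L) := by
    have h2 : (1 - δ) * Z * w ≤ k * w := mul_le_mul_of_nonneg_right g1 hlogpos
    have h3 : k * (Real.log Y + w) ≤ k * Real.log (3 * L) := mul_le_mul_of_nonneg_left hlog3L hk0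
    linarith
  have h2 : Z * ((1 - 3 * δ) + (1 - δ) * w) ≤ G := by
    have e : Z * ((1 - 3 * δ) + (1 - δ) * w) = (1 - 2 * δ) * Z + (1 - δ) * Z * w - δ * Z := by
      ring
    rw [e]
    linarith
  have h3 : (L + 1) / Real.log (L + 1) ≤ (1 + δ) ^ 2 / 2 * Z := by
    have h4 : L + 1 ≤ (1 + δ) * Y / 2 := by linarith
    have he3 : Real.exp 1 ≤ L + 1 := by
      have := Real.exp_one_lt_d9
      linarith
    have h5 := div_log_mono he3 h4
    refine h5.trans ?_
    have h6 : 0 < Real.log ((1 + δ) * Y / 2) := Real.log_pos (by linarith)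
    rw [div_le_iff₀ h6, hZd]
    have e : (1 + δ) ^ 2 / 2 * (Y / Real.log Y) * Real.log ((1 + δ) * Y / 2) =
        ((1 + δ) * Y / 2) * (((1 + δ) * Real.log ((1 + δ) * Y / 2)) / Real.log Y) := by
      field_simp
    rw [e]
    have h7 : 1 ≤ ((1 + δ) * Real.log ((1 + δ) * Y / 2)) / Real.log Y := by
      rw [one_le_div hlY]
      exact g6
    have h8 : 0 ≤ (1 + δ) * Y / 2 := by
      have : 0 ≤ Y := by linarith
      positivity
    nlinarith
  calc κ * ((L + 1) / Real.log (L + 1)) ≤ κ * ((1 + δ) ^ 2 / 2 * Z) :=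
        mul_le_mul_of_nonneg_left h3 hκ
    _ = Z * (κ / 2 * (1 + δ) ^ 2) := by ring
    _ < Z * ((1 - 3 * δ) + (1 - δ) * w) := mul_lt_mul_of_pos_left hδ hZ0
    _ ≤ _ := h2

/-- from the lower bound for `log c - log H` to the final inequality -/
lemma fin2 {h χ L κ : ℝ} (hκ : 0 ≤ κ) (hL : 10 ≤ L) (hχ2 : χ ≤ L + 1)
    (hbig : Real.exp 1 + κ * Real.exp 1 < χ)
    (hG : κ * ((L + 1) / Real.log (L + 1)) < χ - h) :
    max h (Real.exp 1) + κ * (max h (Real.exp 1) / Real.log (max h (Real.exp 1))) < χ := by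
  have hlog : 0 < Real.log (L + 1) := Real.log_pos (by linarith)
  rcases le_total h (Real.exp 1) with h1 | h1
  · rw [max_eq_right h1, Real.log_exp, div_one]
    exact hbig
  · rw [max_eq_left h1]
    have h2 : 0 ≤ (L + 1) / Real.log (L + 1) := div_nonneg (by linarith) hlog.le
    have h3 : 0 ≤ κ * ((L + 1) / Real.log (L + 1)) := mul_nonneg hκ h2
    have h5 : h / Real.log h ≤ (L + 1) / Real.log (L + 1) := div_log_mono h1 (by linarith)
    have h6 : κ * (h / Real.log h) ≤ κ * ((L + 1) / Real.log (L + 1)) :=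
      mul_le_mul_of_nonneg_left h5 hκ
    linarith

/-- **Infinitely many triples with small `H`.** -/
theorem low {κ : ℝ} (hκ1 : 1 ≤ κ) (hκ : κ < 2 + 2 * Real.log (3 / 2)) (B : ℝ) :
    ∃ a b : ℕ, 0 < a ∧ 0 < b ∧ Nat.Coprime a b ∧ B < Real.log ((a + b : ℕ) : ℝ) ∧
      Real.log (max (H (a * b * (a + b))) (Real.exp (Real.exp 1))) +
        κ * (Real.log (max (H (a * b * (a + b))) (Real.exp (Real.exp 1))) /
          Real.log (Real.log (max (H (a * b * (a + b))) (Real.exp (Real.exp 1))))) <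
        Real.log ((a + b : ℕ) : ℝ) := by
  obtain ⟨δ, hδ0, hδ1, hδ⟩ := exists_delta hκ
  obtain ⟨l1, l2⟩ := log_two_bounds
  -- eventual facts
  have f1 : ∀ᶠ x : ℝ in atTop, (1 - δ) * (x / Real.log x) ≤ (Nat.primeCounting ⌊x⌋₊ : ℝ) := by
    filter_upwards [Pool.Agent.Helper923.PNT.pi_tendsto.eventually
      (lt_mem_nhds (show 1 - δ < 1 by linarith)), eventually_gt_atTop (1 : ℝ)] with x hx hx1
    have hl : 0 < Real.log x := Real.log_pos hx1
    rw [lt_div_iff₀ (by linarith)] at hx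
    rw [mul_div_assoc', div_le_iff₀ hl]
    exact hx.le
  have f2 : ∀ᶠ x : ℝ in atTop, (Nat.primeCounting ⌊x⌋₊ : ℝ) ≤ x / 200 := by
    filter_upwards [Pool.Agent.Helper923.PNT.pi_tendsto.eventually
      (gt_mem_nhds (show (1 : ℝ) < 2 by norm_num)), eventually_gt_atTop (1 : ℝ),
      Real.tendsto_log_atTop.eventually_ge_atTop 400] with x hx hx1 hx2
    rw [div_lt_iff₀ (by linarith)] at hx
    have h0 : (0 : ℝ) ≤ (Nat.primeCounting ⌊x⌋₊ : ℝ) := Nat.cast_nonneg _
    nlinarith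
  have f3 : ∀ᶠ x : ℝ in atTop, (1 - δ) * x ≤ Chebyshev.theta x ∧
      Chebyshev.theta x ≤ (1 + δ / 2) * x := by
    filter_upwards [Pool.Agent.Helper923.PNT.theta_div_tendsto.eventually
      (lt_mem_nhds (show 1 - δ < 1 by linarith)),
      Pool.Agent.Helper923.PNT.theta_div_tendsto.eventually
      (gt_mem_nhds (show (1 : ℝ) < 1 + δ / 2 by linarith)), eventually_gt_atTop (1 : ℝ)]
      with x hx hx' hx1
    rw [lt_div_iff₀ (by linarith)] at hx
    rw [div_lt_iff₀ (by linarith)] at hx'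
    exact ⟨hx.le, hx'.le⟩
  have f4 := pi_log_sub_theta δ hδ0
  have f5 : ∀ᶠ x : ℝ in atTop, (4 * x) ^ ((3 : ℝ) / 4) * Real.log (4 * x) + 4 ≤
      δ * (x / Real.log x) := by
    have h1 : (fun x : ℝ => (4 * x) ^ ((3 : ℝ) / 4) * Real.log (4 * x) * Real.log (4 * x) +
        4 * Real.log (4 * x)) =o[atTop] (fun x : ℝ => x) := by
      have h2 : (fun x : ℝ => Real.log x) =o[atTop] (fun x : ℝ => x ^ ((1 : ℝ) / 8)) :=
        isLittleO_log_rpow_atTop (by norm_num)
      have h3 : Tendsto (fun x : ℝ => 4 * x) atTop atTop :=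
        tendsto_id.const_mul_atTop (by norm_num)
      have h4 := h2.comp_tendsto h3
      have h5 : (fun x : ℝ => (4 * x) ^ ((3 : ℝ) / 4) * (Real.log (4 * x) * Real.log (4 * x)))
          =o[atTop] (fun x : ℝ => (4 * x) ^ ((3 : ℝ) / 4) * ((4 * x) ^ ((1 : ℝ) / 8) *
            (4 * x) ^ ((1 : ℝ) / 8))) :=
        (Asymptotics.isBigO_refl _ _).mul_isLittleO (h4.mul h4)
      have h6 : (fun x : ℝ => (4 * x) ^ ((3 : ℝ) / 4) * ((4 * x) ^ ((1 : ℝ) / 8) *
            (4 * x) ^ ((1 : ℝ) / 8))) =ᶠ[atTop] (fun x : ℝ => 4 * x) := by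
        filter_upwards [eventually_gt_atTop (0 : ℝ)] with x hx
        rw [← Real.rpow_add (by linarith), ← Real.rpow_add (by linarith)]
        norm_num
      have h12 : (fun x : ℝ => 4 * x) =O[atTop] (fun x : ℝ => x) :=
        Asymptotics.isBigO_const_mul_self 4 _ _
      have h7 : (fun x : ℝ => (4 * x) ^ ((3 : ℝ) / 4) * Real.log (4 * x) * Real.log (4 * x))
          =o[atTop] (fun x : ℝ => x) := by
        have h8 := (h5.congr' (by rfl) h6).trans_isBigO h12
        simpa only [mul_assoc] using h8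
      have h9 : (fun x : ℝ => 4 * Real.log (4 * x)) =o[atTop] (fun x : ℝ => x) := by
        have h10 := Real.isLittleO_log_id_atTop.comp_tendsto h3
        have h11 : (fun x : ℝ => Real.log (4 * x)) =o[atTop] (fun x : ℝ => 4 * x) := h10
        exact (h11.trans_isBigO h12).const_mul_left 4
      exact h7.add h9
    filter_upwards [h1.bound hδ0, eventually_ge_atTop (2 : ℝ)] with x hx hx1
    have hl : 0 < Real.log x := Real.log_pos (by linarith)
    have hl4 : Real.log x ≤ Real.log (4 * x) := Real.log_le_log (by linarith) (by linarith)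
    have hl40 : 0 < Real.log (4 * x) := by linarith
    have h00 : 0 < (4 * x) ^ ((3 : ℝ) / 4) := Real.rpow_pos_of_pos (by linarith) _
    rw [Real.norm_of_nonneg (by positivity), Real.norm_of_nonneg (by linarith)] at hx
    rw [mul_div_assoc', le_div_iff₀ hl]
    have h0 : 0 ≤ (4 * x) ^ ((3 : ℝ) / 4) * Real.log (4 * x) := by positivity
    nlinarith
  have f6 : ∀ᶠ x : ℝ in atTop, Real.log x ≤ (1 + δ) * Real.log ((1 + δ) * x / 2) := by
    have h1 : ∀ᶠ x : ℝ in atTop, (1 + δ) * Real.log 2 / δ ≤ Real.log x :=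
      Real.tendsto_log_atTop.eventually_ge_atTop _
    filter_upwards [h1, eventually_gt_atTop (2 : ℝ)] with x hx hx1
    have h2 : Real.log (x / 2) ≤ Real.log ((1 + δ) * x / 2) :=
      Real.log_le_log (by linarith) (by nlinarith)
    rw [Real.log_div (by linarith) (by norm_num)] at h2
    rw [div_le_iff₀ hδ0] at hx
    nlinarith
  have f7 : ∀ᶠ x : ℝ in atTop, 64 * x ^ 2 < Real.exp (x / 4) := by
    have h1 : Tendsto (fun x : ℝ => Real.exp (1 / 4 * x) / x ^ (2 : ℝ)) atTop atTop :=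
      tendsto_exp_mul_div_rpow_atTop 2 (1 / 4) (by norm_num)
    filter_upwards [h1.eventually_gt_atTop 64, eventually_gt_atTop (1 : ℝ)] with x hx hx1
    rw [lt_div_iff₀ (by positivity)] at hx
    have e : (1 : ℝ) / 4 * x = x / 4 := by ring
    rw [e] at hx
    exact_mod_cast hx
  have f8 : ∀ᶠ x : ℝ in atTop, 40 + 12 * (Real.exp 1 + κ * Real.exp 1) + 12 * |B| + 8 / δ ≤ x :=
    eventually_ge_atTop _
  obtain ⟨t0, ht0⟩ := eventually_atTop.mp
    (f1.and (f2.and (f3.and (f4.and (f5.and (f6.and (f7.and f8)))))))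
  set y := ⌈t0⌉₊ + 1 with hy
  have hyt : t0 ≤ (y : ℝ) := by
    rw [hy]
    push_cast
    linarith [Nat.le_ceil t0]
  obtain ⟨g1, g2, ⟨g3, g3'⟩, g4, g5, g6, g7, g8⟩ := ht0 (y : ℝ) hyt
  rw [Nat.floor_natCast] at g1 g2 g4
  set Y : ℝ := (y : ℝ) with hYd
  have he1 : 0 < Real.exp 1 := Real.exp_pos 1
  have hY40 : 40 ≤ Y := by
    have : 0 ≤ κ * Real.exp 1 := by positivity
    have : 0 ≤ |B| := abs_nonneg B
    have : 0 ≤ 8 / δ := by positivity
    linarith
  have hlY : 0 < Real.log Y := Real.log_pos (by linarith)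
  set X := Nat.sqrt (primorial y) + 1 with hX
  have hθ : Chebyshev.theta Y = Real.log (primorial y) := by
    rw [Chebyshev.theta_eq_log_primorial, hYd, Nat.floor_natCast]
  have hP0 : 0 < primorial y := primorial_pos y
  have hP0r : (0 : ℝ) < primorial y := by exact_mod_cast hP0
  have hX1 : primorial y < X ^ 2 := by
    have := Nat.lt_succ_sqrt (primorial y)
    rw [sq]
    exact this
  have hX2 : X ^ 2 ≤ 4 * primorial y := by
    have h1 : 1 ≤ Nat.sqrt (primorial y) := by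
      rw [Nat.le_sqrt]
      omega
    have h2 := Nat.sqrt_le (primorial y)
    calc X ^ 2 ≤ (2 * Nat.sqrt (primorial y)) ^ 2 := by
          rw [hX]
          gcongr
          omega
      _ = 4 * (Nat.sqrt (primorial y) * Nat.sqrt (primorial y)) := by ring
      _ ≤ 4 * primorial y := by gcongr
  have hXpos : 0 < X := by omega
  have hXr : (0 : ℝ) < X := by exact_mod_cast hXpos
  set L := Real.log X with hLd
  have hL1 : Chebyshev.theta Y ≤ 2 * L := by
    rw [hθ]
    have : Real.log (primorial y) ≤ Real.log ((X ^ 2 : ℕ) : ℝ) :=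
      Real.log_le_log hP0r (by exact_mod_cast hX1.le)
    rw [Nat.cast_pow, Real.log_pow] at this
    push_cast at this
    linarith
  have hL2 : 2 * L ≤ Chebyshev.theta Y + 2 * Real.log 2 := by
    rw [hθ]
    have : Real.log ((X ^ 2 : ℕ) : ℝ) ≤ Real.log ((4 * primorial y : ℕ) : ℝ) :=
      Real.log_le_log (by exact_mod_cast (by positivity : 0 < X ^ 2)) (by exact_mod_cast hX2)
    rw [Nat.cast_pow, Real.log_pow, Nat.cast_mul,
      Real.log_mul (by norm_num) hP0r.ne'] at this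
    have e : Real.log ((4 : ℕ) : ℝ) = 2 * Real.log 2 := by
      rw [show ((4 : ℕ) : ℝ) = 2 ^ 2 by norm_num, Real.log_pow]
      norm_num
    rw [e] at this
    push_cast at this
    linarith
  have hLY1 : Y / 4 ≤ L := by nlinarith
  have hLY2 : L ≤ Y := by nlinarith
  have hXexp : Real.exp (Y / 4) ≤ X := by
    rw [← Real.le_log_iff_exp_le hXr]
    exact hLY1
  have hX3 : 64 * y ^ 2 < X := by
    have : (64 : ℝ) * Y ^ 2 < X := lt_of_lt_of_le g7 hXexp
    rw [hYd] at this
    exact_mod_cast this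
  have hL10 : 10 ≤ L := by linarith
  have hk : (Nat.primeCounting y : ℝ) ≤ L / 20 := by linarith
  obtain ⟨a, b, ha, hb, hab, hχ1, hχ2, hG⟩ := low_det hX hX3 (by omega) hL10 hk
  rw [← hLd] at hχ1 hχ2 hG
  set χ := Real.log ((a + b : ℕ) : ℝ) with hχd
  set n := a * b * (a + b) with hn
  have hnpos : 1 ≤ n := Nat.one_le_iff_ne_zero.mpr (mul_ne_zero (mul_ne_zero ha.ne' hb.ne')
    (by omega))
  have hHpos := H_pos hnpos
  have hχbig : Real.exp 1 + κ * Real.exp 1 + |B| < χ := by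
    have : 0 ≤ |B| := abs_nonneg B
    have : 0 ≤ 8 / δ := by positivity
    linarith
  refine ⟨a, b, ha, hb, hab, ?_, ?_⟩
  · have h1 : 0 ≤ κ * Real.exp 1 := by positivity
    linarith [le_abs_self B]
  have hGlow : κ * ((L + 1) / Real.log (L + 1)) < χ - Real.log (H n) := by
    refine glow hδ0 hδ1 hδ (by linarith) g1 g3 g3' g4 g5 g6 ?_ hY40 hL1 hL2 hL10 hG
    have h6 : 8 / δ ≤ Y := by
      have : 0 ≤ κ * Real.exp 1 := by positivity
      have : 0 ≤ |B| := abs_nonneg B
      linarith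
    rw [div_le_iff₀ hδ0] at h6
    linarith
  -- the conclusion
  have hHm : Real.log (max (H n) (Real.exp (Real.exp 1))) = max (Real.log (H n)) (Real.exp 1) := by
    rcases le_total (H n) (Real.exp (Real.exp 1)) with h | h
    · rw [max_eq_right h, Real.log_exp, max_eq_right]
      rw [← Real.log_exp (Real.exp 1)]
      exact Real.log_le_log hHpos h
    · rw [max_eq_left h, max_eq_left]
      rw [← Real.log_exp (Real.exp 1)]
      exact Real.log_le_log (Real.exp_pos _) h
  rw [hHm]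
  refine fin2 (by linarith) hL10 hχ2 ?_ hGlow
  have : 0 ≤ |B| := abs_nonneg B
  linarith

end Pool.Agent.V11265.HC
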